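import Pool.Agent.X136.CQ.Perim
import Pool.Agent.H342R3.Tig.Defs

set_option autoImplicit false

/-!
# The path tracing the outer boundary depends only on the edges of the cluster
-/

namespace Pool.Agent.X136.CQ

open H342P.Plain H342L H342T
open Pool.Agent.X136.CQ.Model (opened OfLargest)

theorem ae_ends (σ : H984P.St) : σ.1 = fst (H984P.ae σ) ∨ σ.1 = snd (H984P.ae σ) := by
  obtain ⟨⟨x, y⟩, q⟩ := σ
  cases q
  · left; rfl
  · left; rfl
  · right; simp [snd]
  · right; simp [snd]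

theorem mv_ends (σ : H984P.St) :
    (H984P.mv σ).1 = fst (H984P.ae σ) ∨ (H984P.mv σ).1 = snd (H984P.ae σ) := by
  obtain ⟨⟨x, y⟩, q⟩ := σ
  cases q
  · right; simp [snd]
  · right; simp [snd]
  · left; rfl
  · left; rfl

theorem rt_fst (σ : H984P.St) : (H984P.rt σ).1 = σ.1 := by
  obtain ⟨⟨x, y⟩, q⟩ := σ
  cases q <;> rfl

theorem ends_mem {F : Finset PEdge} {v : ℤ × ℤ} {e : PEdge} (he : e ∈ F) {u w : ℤ × ℤ}
    (hu : u ∈ cluster F v) (h1 : u = fst e ∨ u = snd e) (h2 : w = fst e ∨ w = snd e) :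
    w ∈ cluster F v := by
  have hu' : (openGraph F).Reachable v u := hu
  have hadj : (openGraph F).Adj (fst e) (snd e) := by
    unfold openGraph
    rw [SimpleGraph.fromRel_adj]
    exact ⟨fst_ne_snd e, Or.inl ⟨e, he, rfl, rfl⟩⟩
  rcases h1 with h1 | h1 <;> rcases h2 with h2 | h2 <;> subst h1 <;> subst h2
  · exact hu
  · exact hu'.trans hadj.reachable
  · exact hu'.trans hadj.symm.reachable
  · exact hu

theorem ae_ce {F : Finset PEdge} {v : ℤ × ℤ} {σ : H984P.St} (h : σ.1 ∈ cluster F v) :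
    H984P.ae σ ∈ (↑F : Set PEdge) ↔ H984P.ae σ ∈ clusterEdges F v :=
  ⟨fun h1 => ⟨h1, ends_mem (by exact_mod_cast h1) h (ae_ends σ) (Or.inl rfl)⟩, fun h1 => h1.1⟩

theorem cluster_sub {F F' : Finset PEdge} {v : ℤ × ℤ} (h : clusterEdges F v = clusterEdges F' v)
    {w : ℤ × ℤ} (hw : w ∈ cluster F v) : w ∈ cluster F' v := by
  refine (reach_walk (F := F) (F' := F') (fun u => u ∈ cluster F v) (self_mem _ _) ?_ hw).2
  intro u w hu hadj
  obtain ⟨e, he, e1, e2, e3⟩ := adj_edge hadj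
  have hu' : (openGraph F).Reachable v u := hu
  have h1 : e ∈ clusterEdges F v := ⟨he, ends_mem he hu e1 (Or.inl rfl)⟩
  rw [h] at h1
  exact ⟨hu'.trans hadj.reachable, e3 F' h1.1⟩

theorem cluster_congr {F F' : Finset PEdge} {v : ℤ × ℤ} (h : clusterEdges F v = clusterEdges F' v) :
    cluster F v = cluster F' v :=
  Set.Subset.antisymm (fun _ hw => cluster_sub h hw) fun _ hw => cluster_sub h.symm hw

theorem orb_congr {F F' : Finset PEdge} {v : ℤ × ℤ} (h : clusterEdges F v = clusterEdges F' v)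
    {σ : H984P.St} (hσ : σ.1 ∈ cluster F v) (j : ℕ) :
    H984P.orb (↑F) σ j = H984P.orb (↑F') σ j ∧ (H984P.orb (↑F) σ j).1 ∈ cluster F v := by
  induction j with
  | zero => exact ⟨rfl, hσ⟩
  | succ j ih =>
    obtain ⟨h1, h2⟩ := ih
    rw [H984P.orb_succ, H984P.orb_succ, ← h1]
    set τ := H984P.orb (↑F) σ j
    have h3 : H984P.ae τ ∈ (↑F : Set PEdge) ↔ H984P.ae τ ∈ (↑F' : Set PEdge) := by
      rw [ae_ce h2, h, ← ae_ce (by rw [← cluster_congr h]; exact h2)]
    by_cases h4 : H984P.ae τ ∈ (↑F : Set PEdge)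
    · rw [H984P.nxt_open h4, H984P.nxt_open (h3.1 h4)]
      exact ⟨rfl, ends_mem (by exact_mod_cast h4) h2 (ae_ends τ) (mv_ends τ)⟩
    · rw [H984P.nxt_closed h4, H984P.nxt_closed fun h5 => h4 (h3.2 h5)]
      refine ⟨rfl, ?_⟩
      rw [rt_fst]
      exact h2

theorem isTrace_congr {n : ℕ} {F F' : Finset PEdge} {v : ℤ × ℤ}
    (h : clusterEdges F v = clusterEdges F' v) {c : Curve} (hc : IsTrace n F v c) :
    IsTrace n F' v c := by
  obtain ⟨σ, N, hN, h1, h2, h3, h4, h5⟩ := hc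
  have ho := fun j => (orb_congr h h1 j).1
  refine ⟨σ, N, hN, by rw [← cluster_congr h]; exact h1, ?_, ?_, ?_, ?_⟩
  · unfold Outer at h2 ⊢
    rw [← h]
    exact h2
  · rw [← ho]; exact h3
  · intro j hj hj'
    rw [← ho]
    exact h4 j hj hj'
  · rw [h5]
    congr 1
    funext j
    rw [ho]

/-- There are rules which choose one of the largest clusters and depend only on the largest
clusters. -/
theorem exists_rule (hE : ∀ (n : ℕ) (F : Finset PEdge) (v : ℤ × ℤ), 0 < n → F ⊆ edges n →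
      v ∈ H342P.Plain.box n → ∃ c, IsTrace n F v c) (hL : ∀ (n : ℕ) (F : Finset PEdge), 0 < n →
      F ⊆ edges n → ∃ v, Largest n F v) :
    ∃ (sel : (n : ℕ) → Finset PEdge → ℤ × ℤ) (γ : (n : ℕ) → Finset PEdge → Curve),
      (∀ n F, 0 < n → F ⊆ edges n → Largest n F (sel n F)) ∧
      (∀ n F, 0 < n → F ⊆ edges n → IsTrace n F (sel n F) (γ n F)) ∧
      ∀ n, 0 < n → OfLargest n (γ n) := by
  classical
  let sl : Set (ℤ × ℤ) → ℤ × ℤ := fun S => if h : S.Nonempty then h.some else (0, 0)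
  have hsl : ∀ S : Set (ℤ × ℤ), S.Nonempty → sl S ∈ S := fun S h => by
    simp only [sl, dif_pos h]
    exact h.some_mem
  let gl : (Curve → Prop) → Curve := fun P => if h : ∃ c, P c then h.choose else ⟨0⟩
  have hgl : ∀ P : Curve → Prop, (∃ c, P c) → P (gl P) := fun P h => by
    simp only [gl, dif_pos h]
    exact h.choose_spec
  let sel : (n : ℕ) → Finset PEdge → ℤ × ℤ := fun n F => sl {v | Largest n F v}
  have hsel : ∀ n F, 0 < n → F ⊆ edges n → Largest n F (sel n F) := fun n F hn hF =>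
    hsl {v | Largest n F v} (hL n F hn hF)
  refine ⟨sel, fun n F => gl (IsTrace n F (sel n F)), hsel, fun n F hn hF =>
    hgl _ (hE n F _ hn hF (hsel n F hn hF).1), ?_⟩
  intro n hn F F' hF hF' h1 h2
  have h3 : sel n F = sel n F' := by
    show sl _ = sl _
    congr 1
    ext v
    exact h1 v
  show gl (IsTrace n F (sel n F)) = gl (IsTrace n F' (sel n F'))
  rw [← h3]
  congr 1
  funext c
  have h4 := h2 _ (hsel n F hn hF)
  exact propext ⟨fun h => isTrace_congr h4 h, fun h => isTrace_congr h4.symm h⟩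

end Pool.Agent.X136.CQ
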