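import Pool.Agent.X136.QE.Law2

set_option autoImplicit false

/-!
# Randomised algorithms: the inequality of Schramm and Steif with the second moment
-/

namespace Pool.Agent.X136.CQ

open Finset Pool.Agent.X136.QC Pool.Agent.X136.QE MeasureTheory ProbabilityTheory

section W

variable {ι κ : Type*} [Fintype ι] [DecidableEq ι]

theorem levelF_le {f : (ι → Bool) → ℝ} {X : Finset κ} (hX : X.Nonempty)
    {J : κ → (ι → Bool) → Finset ι} (hJ : ∀ x ∈ X, Stop (J x))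
    (hf : ∀ x ∈ X, ∀ ω ω' : ι → Bool, (∀ i ∈ J x ω, ω i = ω' i) → f ω' = f ω)
    {U : Finset ι} {δ : ℝ} (hδ0 : 0 ≤ δ)
    (hδ : ∀ i ∈ U, ∑ x ∈ X, ((univ.filter fun ω => i ∈ J x ω).card : ℝ) ≤
      δ * X.card * (2 : ℝ) ^ Fintype.card ι)
    {k : ℕ} (hk : 1 ≤ k) :
    WU U f k ≤ k * δ * (2 : ℝ) ^ Fintype.card ι * ∑ ω, f ω ^ 2 := by
  set N : ℝ := (2 : ℝ) ^ Fintype.card ι with hN
  have hN0 : 0 < N := by positivity
  set F2 : ℝ := ∑ ω, f ω ^ 2 with hF2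
  have hF20 : 0 ≤ F2 := sum_nonneg fun _ _ => sq_nonneg _
  have hW0 : 0 ≤ WU U f k := sum_nonneg fun _ _ => sq_nonneg _
  have hX0 : (0 : ℝ) < X.card := by exact_mod_cast hX.card_pos
  have h1 : ∀ x ∈ X, WU U f k ^ 2 ≤ F2 * ∑ T ∈ powersetCard k U,
      (∑ ω, f ω * chi T ω) ^ 2 * ((univ.filter fun ω => ¬ Disjoint T (J x ω)).card : ℝ) := by
    intro x hx
    have h2 := sum_f_PP (hJ x hx) (hf x hx) (gU U f k)
    rw [sum_f_gU] at h2
    have h3 := sum_mul_sq_le_sq_mul_sq univ f (PP (J x) (gU U f k))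
    rw [h2] at h3
    have h4 := PPU_sq_le (hJ x hx) U f hk
    have h5 : (N * WU U f k) ^ 2 ≤ F2 * (N ^ 2 * ∑ T ∈ powersetCard k U,
      (∑ ω, f ω * chi T ω) ^ 2 * ((univ.filter fun ω => ¬ Disjoint T (J x ω)).card : ℝ)) :=
      h3.trans (mul_le_mul_of_nonneg_left h4 hF20)
    have h6 : N ^ 2 * WU U f k ^ 2 ≤ N ^ 2 * (F2 * ∑ T ∈ powersetCard k U,
      (∑ ω, f ω * chi T ω) ^ 2 * ((univ.filter fun ω => ¬ Disjoint T (J x ω)).card : ℝ)) := by
      calc N ^ 2 * WU U f k ^ 2 = (N * WU U f k) ^ 2 := by ring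
        _ ≤ _ := h5
        _ = _ := by ring
    exact le_of_mul_le_mul_left h6 (by positivity)
  have h4 : ∀ T ∈ powersetCard k U,
      ∑ x ∈ X, ((univ.filter fun ω => ¬ Disjoint T (J x ω)).card : ℝ) ≤
        k * (δ * X.card * N) := by
    intro T hT
    have h5 : ∀ x ∈ X, ((univ.filter fun ω => ¬ Disjoint T (J x ω)).card : ℝ) ≤
        ∑ i ∈ T, ((univ.filter fun ω => i ∈ J x ω).card : ℝ) := by
      intro x _
      have h6 : (univ.filter fun ω => ¬ Disjoint T (J x ω)) ⊆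
          T.biUnion fun i => univ.filter fun ω => i ∈ J x ω := by
        intro ω hω
        rw [mem_filter, not_disjoint_iff] at hω
        obtain ⟨-, i, hi, hi2⟩ := hω
        exact mem_biUnion.2 ⟨i, hi, mem_filter.2 ⟨mem_univ _, hi2⟩⟩
      exact_mod_cast (card_le_card h6).trans card_biUnion_le
    refine (sum_le_sum h5).trans ?_
    rw [sum_comm]
    refine (sum_le_sum fun i hi => hδ i ((mem_powersetCard.1 hT).1 hi)).trans ?_
    rw [sum_const, (mem_powersetCard.1 hT).2, nsmul_eq_mul]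
  have h5 : X.card * WU U f k ^ 2 ≤ F2 * (WU U f k * (k * (δ * X.card * N))) := by
    have h6 := sum_le_sum h1
    rw [sum_const, nsmul_eq_mul, ← mul_sum, sum_comm] at h6
    refine h6.trans ?_
    refine mul_le_mul_of_nonneg_left ?_ hF20
    unfold WU
    rw [sum_mul]
    refine sum_le_sum fun T hT => ?_
    rw [← mul_sum]
    exact mul_le_mul_of_nonneg_left (h4 T hT) (sq_nonneg _)
  rcases hW0.eq_or_lt with h0 | h0
  · rw [← h0]
    positivity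
  · have h6 : (X.card * WU U f k) * WU U f k ≤ (X.card * WU U f k) * (k * δ * N * F2) := by
      calc (X.card * WU U f k) * WU U f k = X.card * WU U f k ^ 2 := by ring
        _ ≤ _ := h5
        _ = _ := by ring
    exact le_of_mul_le_mul_left h6 (by positivity)

theorem stabF_le {f : (ι → Bool) → ℝ} {X : Finset κ} (hX : X.Nonempty)
    {J : κ → (ι → Bool) → Finset ι} (hJ : ∀ x ∈ X, Stop (J x))
    (hf : ∀ x ∈ X, ∀ ω ω' : ι → Bool, (∀ i ∈ J x ω, ω i = ω' i) → f ω' = f ω)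
    {U : Finset ι} {δ : ℝ} (hδ0 : 0 ≤ δ)
    (hδ : ∀ i ∈ U, ∑ x ∈ X, ((univ.filter fun ω => i ∈ J x ω).card : ℝ) ≤
      δ * X.card * (2 : ℝ) ^ Fintype.card ι)
    {ρ : ℝ} (h0 : 0 ≤ ρ) (h1 : ρ < 1) {r : ι → ℝ} (hr0 : ∀ i, 0 ≤ r i) (hr1 : ∀ i, r i ≤ ρ)
    (hrU : ∀ i, i ∉ U → r i = 0) :
    ∑ x : ι → Bool, ∑ y : ι → Bool, f x * f y * ∏ i, ((1 + r i * (sg (x i) * sg (y i))) / 4) -
      ((∑ ω, f ω) / (2 : ℝ) ^ Fintype.card ι) ^ 2 ≤
      δ * (ρ / (1 - ρ) ^ 2) * ((∑ ω, f ω ^ 2) / (2 : ℝ) ^ Fintype.card ι) := by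
  set N : ℝ := (2 : ℝ) ^ Fintype.card ι with hN
  have hN0 : 0 < N := by positivity
  set F2 : ℝ := ∑ ω, f ω ^ 2 with hF2
  have hF20 : 0 ≤ F2 := sum_nonneg fun _ _ => sq_nonneg _
  have e1 : ∑ x : ι → Bool, ∑ y : ι → Bool, f x * f y *
      ∏ i, ((1 + r i * (sg (x i) * sg (y i))) / 4) =
      (∑ S ∈ (univ : Finset ι).powerset, (∏ i ∈ S, r i) * (∑ ω, f ω * chi S ω) ^ 2) / N ^ 2 := by
    rw [← stabU_eq, sum_div]
    refine sum_congr rfl fun x _ => ?_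
    rw [sum_div]
    refine sum_congr rfl fun y _ => ?_
    rw [prod_div_distrib, prod_const, card_univ]
    have : (4 : ℝ) ^ Fintype.card ι = N ^ 2 := by
      rw [hN, ← pow_mul, mul_comm, pow_mul]; norm_num
    rw [this]
    ring
  have e2 : ∑ S ∈ (univ : Finset ι).powerset, (∏ i ∈ S, r i) * (∑ ω, f ω * chi S ω) ^ 2 ≤
      ∑ k ∈ range (U.card + 1), ρ ^ k * WU U f k := by
    have e3 : ∑ S ∈ (univ : Finset ι).powerset, (∏ i ∈ S, r i) * (∑ ω, f ω * chi S ω) ^ 2 =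
        ∑ S ∈ U.powerset, (∏ i ∈ S, r i) * (∑ ω, f ω * chi S ω) ^ 2 := by
      symm
      refine sum_subset (powerset_mono.2 (subset_univ _)) ?_
      intro S _ hS
      rw [mem_powerset, not_subset] at hS
      obtain ⟨i, hi, hi2⟩ := hS
      rw [prod_eq_zero hi (hrU i hi2), zero_mul]
    rw [e3, sum_powerset]
    refine sum_le_sum fun k _ => ?_
    unfold WU
    rw [mul_sum]
    refine sum_le_sum fun S hS => ?_
    refine mul_le_mul_of_nonneg_right ?_ (sq_nonneg _)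
    calc ∏ i ∈ S, r i ≤ ∏ _i ∈ S, ρ := prod_le_prod (fun i _ => hr0 i) fun i _ => hr1 i
      _ = ρ ^ k := by rw [prod_const, (mem_powersetCard.1 hS).2]
  have e4 : WU U f 0 = (∑ ω, f ω) ^ 2 := by
    unfold WU
    rw [powersetCard_zero, sum_singleton]
    congr 1
    exact sum_congr rfl fun ω _ => by rw [chi_empty, mul_one]
  rw [sum_range_succ', pow_zero, one_mul, e4] at e2
  have h2 : ∀ k ∈ range U.card, ρ ^ (k + 1) * WU U f (k + 1) ≤
      (((k + 1 : ℕ) : ℝ) * ρ ^ (k + 1)) * (δ * N * F2) := by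
    intro k _
    have h3 := levelF_le hX hJ hf hδ0 hδ (Nat.succ_le_succ (Nat.zero_le k))
    calc ρ ^ (k + 1) * WU U f (k + 1) ≤ ρ ^ (k + 1) * (((k + 1 : ℕ) : ℝ) * δ * N * F2) :=
          mul_le_mul_of_nonneg_left h3 (by positivity)
      _ = _ := by ring
  have hρ : ‖ρ‖ < 1 := by rw [Real.norm_eq_abs, abs_of_nonneg h0]; exact h1
  have h3 : ∑ k ∈ range U.card, (((k + 1 : ℕ) : ℝ) * ρ ^ (k + 1)) ≤
      ρ / (1 - ρ) ^ 2 := by
    rw [← tsum_coe_mul_geometric_of_norm_lt_one hρ]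
    have hs : Summable fun n : ℕ => (n : ℝ) * ρ ^ n :=
      (hasSum_coe_mul_geometric_of_norm_lt_one hρ).summable
    have h4 := sum_range_succ' (fun n : ℕ => (n : ℝ) * ρ ^ n) U.card
    have h5 : ∑ k ∈ range U.card, (((k + 1 : ℕ) : ℝ) * ρ ^ (k + 1)) =
        ∑ k ∈ range (U.card + 1), (k : ℝ) * ρ ^ k := by
      rw [h4]; simp
    rw [h5]
    exact hs.sum_le_tsum _ fun n _ => by positivity
  have h6 := sum_le_sum h2
  rw [← sum_mul] at h6
  have h7 : (∑ k ∈ range U.card, (((k + 1 : ℕ) : ℝ) * ρ ^ (k + 1))) * (δ * N * F2) ≤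
      ρ / (1 - ρ) ^ 2 * (δ * N * F2) := mul_le_mul_of_nonneg_right h3 (by positivity)
  rw [e1, div_pow, ← sub_div, div_le_iff₀ (by positivity)]
  calc _ ≤ ρ / (1 - ρ) ^ 2 * (δ * N * F2) := by linarith
    _ = _ := by field_simp

end W

section E

variable {E κ : Type*} [DecidableEq E] {ν : E → Measure unitInterval}
  [∀ e, IsProbabilityMeasure (ν e)]

/-- **Quenched expectations of functions with small revealment on the random edges.** -/
theorem evnF_var_le (hm : ∀ e, ∫ p, (p : ℝ) ∂ν e = 1 / 2) {ρ : ℝ} (hρ0 : 0 ≤ ρ)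
    (hρ1 : ρ < 1)
    (hρ : ∀ e, rho (ν e) ≤ ρ) (W : Finset E) {U : Set E} (hU : ∀ e ∉ U, rho (ν e) = 0)
    {g : (W → Bool) → ℝ} {X : Finset κ} (hX : X.Nonempty)
    {J : κ → (W → Bool) → Finset W} (hJ : ∀ x ∈ X, Stop (J x))
    (hf : ∀ x ∈ X, ∀ ω ω' : W → Bool, (∀ i ∈ J x ω, ω i = ω' i) → g ω' = g ω)
    {δ : ℝ} (hδ0 : 0 ≤ δ)
    (hδ : ∀ i : W, (i : E) ∈ U → ∑ x ∈ X,
      ((univ.filter fun ω => i ∈ J x ω).card : ℝ) ≤ δ * X.card * (2 : ℝ) ^ Fintype.card W) :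
    ∫ q, ((∫ ω, g (fun i : W => ω i) ∂pl q) - mn W g) ^ 2 ∂evn ν ≤
      δ * (ρ / (1 - ρ) ^ 2) * mn W (fun x => g x ^ 2) := by
  classical
  rw [evn_var hm]
  exact stabF_le hX hJ hf (U := univ.filter fun i : W => (i : E) ∈ U) hδ0
    (fun i hi => hδ i (mem_filter.1 hi).2) hρ0 hρ1
    (r := fun i => rho (ν i)) (fun i => rho_nonneg _) (fun i => hρ i)
    (fun i hi => hU i fun h => hi (mem_filter.2 ⟨mem_univ _, h⟩))

end E

end Pool.Agent.X136.CQ
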