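import Pool.Agent.X136.QC.Arm
import Pool.Agent.X136.CQ.Walsh3

set_option autoImplicit false

/-!
# Clusters which touch a grid
-/

namespace Pool.Agent.X136.CQ

open Finset Pool.Agent.X136.QC MeasureTheory ProbabilityTheory

/-! ### Relabelling -/

section Relabel

variable {ι κ V : Type*} {en : ι → Sym2 V} {en' : κ → Sym2 V} (e : ι ≃ κ)

theorem Ad_rel (h : ∀ i, en' (e i) = en i) (y : ι → Bool) (u v : V) :
    Ad en y u v ↔ Ad en' (fun k => y (e.symm k)) u v := by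
  constructor
  · rintro ⟨i, h1, h2⟩
    exact ⟨e i, by simpa using h1, by rw [h]; exact h2⟩
  · rintro ⟨k, h1, h2⟩
    refine ⟨e.symm k, h1, ?_⟩
    rw [← h, Equiv.apply_symm_apply]
    exact h2

theorem Co_rel (h : ∀ i, en' (e i) = en i) (y : ι → Bool) (u v : V) :
    Co en y u v ↔ Co en' (fun k => y (e.symm k)) u v := by
  have : Ad en y = Ad en' (fun k => y (e.symm k)) := by
    funext a b
    exact propext (Ad_rel e h y a b)
  unfold Co
  rw [this]

theorem CC_rel (h : ∀ i, en' (e i) = en i) (φ : V → ℤ) (x : ℤ) (y : ι → Bool) :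
    CC en φ x y = CC en' φ x (fun k => y (e.symm k)) := by
  ext v
  unfold CC
  simp only [Set.mem_ofPred_eq, Co_rel e h y]

end Relabel

open Classical in
/-- the revealment of a vertex, for injective labels -/
theorem arm_card : ∃ C : ℝ, 1 ≤ C ∧ ∀ {ι : Type} [Fintype ι] [DecidableEq ι] (j : ι → Edge)
    (_ : Function.Injective j) (φ : ℤ × ℤ → ℤ) (_ : ∀ u v, φ u ≤ φ v + sd u v) (x : ℤ)
    (v : ℤ × ℤ),
    ((univ.filter fun y : ι → Bool => v ∈ CC (fun i => ends (j i)) φ x y).card : ℝ) ≤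
      C * hw (5 / 48) (x - φ v).natAbs * (2 : ℝ) ^ Fintype.card ι := by
  obtain ⟨C, hC, harm⟩ := arm_bound
  refine ⟨C, hC, ?_⟩
  intro ι _ _ j hj φ hφ x v
  set W : Finset Edge := univ.image j with hW
  have hmem : ∀ i, j i ∈ W := fun i => mem_image_of_mem _ (mem_univ _)
  set e : ι ≃ W := Equiv.ofBijective (fun i => (⟨j i, hmem i⟩ : W)) ⟨fun a b h => hj (by
    simpa using congrArg Subtype.val h), fun ⟨w, hw⟩ => by
      obtain ⟨i, -, hi⟩ := mem_image.1 hw
      exact ⟨i, Subtype.ext hi⟩⟩ with he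
  have h1 := harm W φ hφ x v
  rw [crit_eq, fair_event, div_le_iff₀ (by positivity)] at h1
  have hcard : Fintype.card ι = Fintype.card W := Fintype.card_congr e
  rw [hcard]
  refine le_trans (le_of_eq ?_) h1
  have h2 : ((univ.filter fun y : W → Bool => v ∈ CC (enW W) φ x y).card : ℝ) =
      ((univ.filter fun y : ι → Bool => v ∈ CC (fun i => ends (j i)) φ x y).card : ℝ) := by
    congr 1
    refine Finset.card_bij (fun y _ => fun i => y (e i)) ?_ ?_ ?_
    · intro y hy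
      rw [mem_filter] at hy ⊢
      refine ⟨mem_univ _, ?_⟩
      rw [CC_rel (en := fun i => ends (j i)) (en' := enW W) e (fun i => rfl)]
      convert hy.2 using 3
      simp
    · intro y _ y' _ h
      funext w
      have := congrFun h (e.symm w)
      simpa using this
    · intro y hy
      refine ⟨fun w => y (e.symm w), ?_, by funext i; simp⟩
      rw [mem_filter] at hy ⊢
      refine ⟨mem_univ _, ?_⟩
      rw [← CC_rel (en := fun i => ends (j i)) (en' := enW W) e (fun i => rfl)]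
      exact hy.2
  rw [← h2, card_filter]
  push_cast
  rfl

/-! ### The grid -/

/-- the grid of spacing `m` through `(x, x)` -/
def Gr (m : ℕ) (x : ℤ) : Set (ℤ × ℤ) := {v | (m : ℤ) ∣ v.1 - x ∨ (m : ℤ) ∣ v.2 - x}

theorem Gr_nonempty (m : ℕ) (x : ℤ) : (Gr m x).Nonempty := ⟨(x, x), Or.inl (by simp)⟩

/-- a path with one long projection meets the grid -/
theorem meet_one {m : ℕ} (hm : 1 ≤ m) (x : ℤ) {ι : Type*} {en : ι → Sym2 (ℤ × ℤ)}
    (hen : ∀ i u v, en i = s(u, v) → sd u v ≤ 1) {y : ι → Bool} {a b : ℤ × ℤ}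
    (h : Co en y a b) (hab : m ≤ sd a b) : ∃ w ∈ Gr m x, Co en y a w := by
  -- integer intermediate values
  have key : ∀ (p : ℤ × ℤ → ℤ), (∀ u v, sd u v ≤ 1 → p v ≤ p u + 1) → ∀ a b, Co en y a b →
      ∀ z, p a ≤ z → z ≤ p b → ∃ w, p w = z ∧ Co en y a w := by
    intro p hp a b hab z h1 h2
    obtain ⟨w, hw1, hw2, -⟩ := co_level (φ := p) (fun i u v hi => hp u v (hen i u v hi)) hab h1 h2
    exact ⟨w, hw1, hw2⟩
  have hmod : ∀ c d : ℤ, c + m ≤ d → ∃ z, c ≤ z ∧ z ≤ d ∧ (m : ℤ) ∣ z - x := by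
    intro c d hcd
    have hm' : (0 : ℤ) < m := by exact_mod_cast hm
    refine ⟨c + (x - c) % m, ?_, ?_, ?_⟩
    · have := Int.emod_nonneg (x - c) hm'.ne'
      omega
    · have := Int.emod_lt_of_pos (x - c) hm'
      omega
    · refine ⟨-((x - c) / m), ?_⟩
      have := Int.emod_add_mul_ediv (x - c) m
      linarith
  have hp1 : ∀ u v : ℤ × ℤ, sd u v ≤ 1 → v.1 ≤ u.1 + 1 := by
    intro u v h; unfold sd at h; omega
  have hp2 : ∀ u v : ℤ × ℤ, sd u v ≤ 1 → v.2 ≤ u.2 + 1 := by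
    intro u v h; unfold sd at h; omega
  have hp3 : ∀ u v : ℤ × ℤ, sd u v ≤ 1 → -v.1 ≤ -u.1 + 1 := by
    intro u v h; unfold sd at h; omega
  have hp4 : ∀ u v : ℤ × ℤ, sd u v ≤ 1 → -v.2 ≤ -u.2 + 1 := by
    intro u v h; unfold sd at h; omega
  have hcases : a.1 + m ≤ b.1 ∨ b.1 + m ≤ a.1 ∨ a.2 + m ≤ b.2 ∨ b.2 + m ≤ a.2 := by
    unfold sd at hab; omega
  rcases hcases with h1 | h1 | h1 | h1
  · obtain ⟨z, z1, z2, z3⟩ := hmod _ _ h1
    obtain ⟨w, w1, w2⟩ := key (fun v => v.1) hp1 a b h z z1 z2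
    exact ⟨w, Or.inl (by rw [show w.1 = z from w1]; exact z3), w2⟩
  · obtain ⟨z, z1, z2, z3⟩ := hmod _ _ h1
    obtain ⟨w, w1, w2⟩ := key (fun v => -v.1) hp3 a b h (-z) (by omega) (by omega)
    have w1' : -w.1 = -z := w1
    exact ⟨w, Or.inl (by rw [show w.1 = z by omega]; exact z3), w2⟩
  · obtain ⟨z, z1, z2, z3⟩ := hmod _ _ h1
    obtain ⟨w, w1, w2⟩ := key (fun v => v.2) hp2 a b h z z1 z2
    exact ⟨w, Or.inr (by rw [show w.2 = z from w1]; exact z3), w2⟩
  · obtain ⟨z, z1, z2, z3⟩ := hmod _ _ h1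
    obtain ⟨w, w1, w2⟩ := key (fun v => -v.2) hp4 a b h (-z) (by omega) (by omega)
    have w1' : -w.2 = -z := w1
    exact ⟨w, Or.inr (by rw [show w.2 = z by omega]; exact z3), w2⟩

/-- the distance to an arithmetic progression -/
theorem prog_le {m : ℕ} (hm : 1 ≤ m) {s : ℝ} (h0 : 0 ≤ s) (t x : ℤ) (hx : x ∈ Finset.Icc (1 : ℤ) m)
    {d : ℕ} {z : ℤ} (hz : (m : ℤ) ∣ z - x) (hd : (t - z).natAbs ≤ d) :
    hw s d ≤ hw s (x - t % m).natAbs + hw s (x - (t % m - m)).natAbs +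
      hw s (x - (t % m + m)).natAbs := by
  have hm' : (0 : ℤ) < m := by exact_mod_cast hm
  rw [Finset.mem_Icc] at hx
  obtain ⟨k, hk⟩ := hz
  have h1 := Int.emod_nonneg t hm'.ne'
  have h2 := Int.emod_lt_of_pos t hm'
  have h3 := Int.emod_add_mul_ediv t m
  set r := t % m with hr
  set Q := t / (m : ℤ) with hQ
  -- `t - z = r - x + (Q - k) m`
  have h4 : t - z = (r - x) + (Q - k) * m := by
    have : z = x + m * k := by linarith
    rw [this, ← h3]
    ring
  have n1 := hw_nonneg s (x - r).natAbs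
  have n2 := hw_nonneg s (x - (r - m)).natAbs
  have n3 := hw_nonneg s (x - (r + m)).natAbs
  have hcases : Q - k = 0 ∨ Q - k = 1 ∨ Q - k = -1 ∨ 2 ≤ Q - k ∨ Q - k ≤ -2 := by omega
  rcases hcases with h | h | h | h | h
  · have : hw s d ≤ hw s (x - r).natAbs := hw_anti h0 (by
      rw [h, zero_mul, add_zero] at h4
      omega)
    linarith
  · have : hw s d ≤ hw s (x - (r + m)).natAbs := hw_anti h0 (by
      rw [h, one_mul] at h4
      omega)
    linarith
  · have : hw s d ≤ hw s (x - (r - m)).natAbs := hw_anti h0 (by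
      rw [h] at h4
      omega)
    linarith
  · have h5 : 2 * (m : ℤ) ≤ (Q - k) * m := mul_le_mul_of_nonneg_right h hm'.le
    have : hw s d ≤ hw s (x - r).natAbs := hw_anti h0 (by omega)
    linarith
  · have h5 : (Q - k) * m ≤ -2 * (m : ℤ) := mul_le_mul_of_nonneg_right h hm'.le
    have : hw s d ≤ hw s (x - r).natAbs := hw_anti h0 (by omega)
    linarith

theorem sum_grid {m : ℕ} (hm : 1 ≤ m) (v : ℤ × ℤ) :
    ∑ x ∈ Finset.Icc (1 : ℤ) m, hw (5 / 48) (lev (Gr m x) v) ≤ 30 * (m : ℝ) ^ (1 - 5 / 48 : ℝ) := by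
  have hb : ∀ x ∈ Finset.Icc (1 : ℤ) m, hw (5 / 48) (lev (Gr m x) v) ≤
      ((hw (5 / 48) (x - v.1 % m).natAbs + hw (5 / 48) (x - (v.1 % m - m)).natAbs +
        hw (5 / 48) (x - (v.1 % m + m)).natAbs) +
      (hw (5 / 48) (x - v.2 % m).natAbs + hw (5 / 48) (x - (v.2 % m - m)).natAbs +
        hw (5 / 48) (x - (v.2 % m + m)).natAbs)) := by
    intro x hx
    obtain ⟨s, hs, hs2⟩ := lev_spec (Gr_nonempty m x) v
    have p : ∀ k, 0 ≤ hw (5 / 48) k := hw_nonneg _
    rcases hs with hs | hs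
    · have := prog_le hm (s := 5 / 48) (by norm_num) v.1 x hx hs (d := lev (Gr m x) v) (by
        unfold sd at hs2; omega)
      linarith [p (x - v.2 % m).natAbs, p (x - (v.2 % m - m)).natAbs, p (x - (v.2 % m + m)).natAbs]
    · have := prog_le hm (s := 5 / 48) (by norm_num) v.2 x hx hs (d := lev (Gr m x) v) (by
        unfold sd at hs2; omega)
      linarith [p (x - v.1 % m).natAbs, p (x - (v.1 % m - m)).natAbs, p (x - (v.1 % m + m)).natAbs]
  refine (sum_le_sum hb).trans ?_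
  simp only [sum_add_distrib]
  have h := fun d : ℤ => sum_level (s := 5 / 48) (by norm_num) (by norm_num) hm d
  have e : (4 / (1 - 5 / 48) : ℝ) ≤ 5 := by norm_num
  have hp : 0 ≤ (m : ℝ) ^ (1 - 5 / 48 : ℝ) := by positivity
  have h' : ∀ d : ℤ, ∑ x ∈ Finset.Icc (1 : ℤ) m, hw (5 / 48) (x - d).natAbs ≤
      5 * (m : ℝ) ^ (1 - 5 / 48 : ℝ) := fun d =>
    (h d).trans (mul_le_mul_of_nonneg_right e hp)
  linarith [h' (v.1 % m), h' (v.1 % m - m), h' (v.1 % m + m), h' (v.2 % m), h' (v.2 % m - m),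
    h' (v.2 % m + m)]

end Pool.Agent.X136.CQ
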