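import Pool.Agent.H342R3.Lim.Law

set_option autoImplicit false

/-!
# Bond percolation on `ℤ²` in a random environment: clusters of the box

`Edge`, `fst`, `snd`, `edges n` (the edges of `Λ_n = {0, …, n}²`), `cluster F v`,
`clusterEdges F v`, `sqDist`, `Largest n F v` (for a set `F` of open edges) are those of
`Pool/Agent/H342R2/Per/Plain.lean`; `lawOf n f` (the law of `f F` for critical percolation in `Λ_n`)
is that of `Pool/Agent/H342R3/Lim/Law.lean`.
-/

namespace Pool.Agent.X136.CQ.Model

open H342P.Plain MeasureTheory ProbabilityTheory

/-- Percolation in the environment `q`: the edge `e` is open (`true`) with probability `q e`,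
independently of the other edges. -/
noncomputable def law (q : Edge → unitInterval) : Measure (Edge → Bool) :=
  Measure.infinitePi (fun e => bernoulliMeasure true false (q e))

instance (q : Edge → unitInterval) : IsProbabilityMeasure (law q) := by unfold law; infer_instance

/-- The law of an environment with independent values, the value at the edge `e` of law `ν e`. -/
noncomputable def env (ν : Edge → Measure unitInterval) : Measure (Edge → unitInterval) :=
  Measure.infinitePi ν

/-- `E (2 p - 1)²` for `p` of law `ν`; for a law of mean `1 / 2` this is four times the variance, and
it is smaller than `1` unless `ν` is concentrated on `{0, 1}`. -/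
noncomputable def rho (ν : Measure unitInterval) : ℝ := ∫ p, (2 * (p : ℝ) - 1) ^ 2 ∂ν

/-- Critical percolation: all edges are open with probability `1 / 2`. -/
noncomputable def half : Edge → unitInterval := fun _ => ⟨1/2, by norm_num, by norm_num⟩

/-- The open edges of `W`. -/
def opened (W : Finset Edge) (ω : Edge → Bool) : Finset Edge := W.filter fun e => ω e = true

theorem measurable_opened {X : Type*} [MeasurableSpace X] (W : Finset Edge)
    (f : Finset Edge → X) : Measurable fun ω : Edge → Bool => f (opened W ω) := by
  have h : (fun ω : Edge → Bool => f (opened W ω)) =
      (fun y : W → Bool => f (opened W fun e => if h : e ∈ W then y ⟨e, h⟩ else false)) ∘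
        fun ω (i : W) => ω i := by
    funext ω
    simp only [Function.comp]
    congr 1
    ext e
    unfold opened
    simp only [Finset.mem_filter]
    constructor
    · rintro ⟨h1, h2⟩
      exact ⟨h1, by rw [dif_pos h1]; exact h2⟩
    · rintro ⟨h1, h2⟩
      rw [dif_pos h1] at h2
      exact ⟨h1, h2⟩
  rw [h]
  exact (measurable_of_finite _).comp (measurable_pi_lambda _ fun i => measurable_pi_apply _)

/-- The quenched law: the law in the environment `q` of `f F`, where `F` is the set of the open edges
of the box `Λ_n`. -/
noncomputable def lawQ {X : Type*} [MeasurableSpace X] (q : Edge → unitInterval) (n : ℕ)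
    (f : Finset Edge → X) : ProbabilityMeasure X :=
  ⟨(law q).map fun ω => f (opened (edges n) ω),
    Measure.isProbabilityMeasure_map (measurable_opened _ f).aemeasurable⟩

/-- One of the two ends of the edge `e` is a vertex of a cluster of `F` of Euclidean diameter at
least `m`. -/
def Touches (m : ℕ) (F : Finset Edge) (e : Edge) : Prop :=
  ∃ v, (v = fst e ∨ v = snd e) ∧ ∃ a ∈ cluster F v, ∃ b ∈ cluster F v, (m : ℤ) ^ 2 ≤ sqDist a b

/-- The function `g` of the set of the open edges of `W` depends only on the clusters of diameter at
least `m`: it takes the same value at `F` and at `F'` if these sets contain the same edges among those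
which touch a cluster of `F` or of `F'` of diameter at least `m`. -/
def OfLarge {X : Type*} (m : ℕ) (W : Finset Edge) (g : Finset Edge → X) : Prop :=
  ∀ F F', F ⊆ W → F' ⊆ W → (∀ e, Touches m F e ∨ Touches m F' e → (e ∈ F ↔ e ∈ F')) → g F = g F'

/-- `f F` depends only on the clusters of largest diameter of the box `Λ_n`: it takes the same value
at `F` and at `F'` if these sets have the same clusters of largest diameter, with the same open
edges. For instance `f F` can be any function of the cluster of largest diameter, if ties are broken
by any rule which depends on the clusters of largest diameter. -/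
def OfLargest {X : Type*} (n : ℕ) (f : Finset Edge → X) : Prop :=
  ∀ F F', F ⊆ edges n → F' ⊆ edges n → (∀ v, Largest n F v ↔ Largest n F' v) →
    (∀ v, Largest n F v → clusterEdges F v = clusterEdges F' v) → f F = f F'

end Pool.Agent.X136.CQ.Model
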