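import Pool.Agent.X136.CQ.Grid
import Pool.Agent.X136.CQ.Model

set_option autoImplicit false

/-!
# Functions of the large clusters
-/

namespace Pool.Agent.X136.CQ

open Finset Pool.Agent.X136.QC Pool.Agent.X136.QE MeasureTheory ProbabilityTheory
open Pool.Agent.X136.CQ.Model (opened Touches OfLarge)

abbrev PEdge := H342P.Plain.Edge

/-- change of the coding of edges -/
def fl (e : PEdge) : Edge := (e.1, e.2.1, !e.2.2)

theorem fl_inj : Function.Injective fl := by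
  rintro ⟨x, y, b⟩ ⟨x', y', b'⟩ h
  simp only [fl, Prod.mk.injEq] at h
  obtain ⟨h1, h2, h3⟩ := h
  cases b <;> cases b' <;> simp_all

theorem ends_fl (e : PEdge) : ends (fl e) = s(H342P.Plain.fst e, H342P.Plain.snd e) := by
  obtain ⟨x, y, b⟩ := e
  unfold ends fl H342P.Plain.fst H342P.Plain.snd
  cases b <;> simp

/-- the ends of the edges of a finite set -/
def eW (W : Finset PEdge) (i : W) : Sym2 (ℤ × ℤ) := ends (fl i)

/-- the set of open edges -/
def Fo (W : Finset PEdge) (y : W → Bool) : Finset PEdge :=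
  W.filter fun e => (if h : e ∈ W then y ⟨e, h⟩ else false) = true

theorem mem_Fo {W : Finset PEdge} {y : W → Bool} {e : PEdge} :
    e ∈ Fo W y ↔ ∃ h : e ∈ W, y ⟨e, h⟩ = true := by
  unfold Fo
  rw [mem_filter]
  constructor
  · rintro ⟨h1, h2⟩
    rw [dif_pos h1] at h2
    exact ⟨h1, h2⟩
  · rintro ⟨h1, h2⟩
    exact ⟨h1, by rw [dif_pos h1]; exact h2⟩

theorem Fo_sub (W : Finset PEdge) (y : W → Bool) : Fo W y ⊆ W := filter_subset _ _

theorem opened_eq (W : Finset PEdge) (ω : PEdge → Bool) :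
    opened W ω = Fo W fun i : W => ω i := by
  ext e
  rw [mem_Fo]
  unfold opened
  rw [mem_filter]
  constructor
  · rintro ⟨h1, h2⟩; exact ⟨h1, h2⟩
  · rintro ⟨h1, h2⟩; exact ⟨h1, h2⟩

theorem ad_iff (W : Finset PEdge) (y : W → Bool) (u v : ℤ × ℤ) :
    Ad (eW W) y u v ↔ (H342P.Plain.openGraph (Fo W y)).Adj u v := by
  unfold H342P.Plain.openGraph
  rw [SimpleGraph.fromRel_adj]
  constructor
  · rintro ⟨i, h1, h2⟩
    have h3 : s(H342P.Plain.fst (i : PEdge), H342P.Plain.snd (i : PEdge)) = s(u, v) := by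
      rw [← ends_fl]; exact h2
    have hi : (i : PEdge) ∈ Fo W y := mem_Fo.2 ⟨i.2, h1⟩
    have hne := H342P.Plain.fst_ne_snd (i : PEdge)
    rw [Sym2.eq_iff] at h3
    rcases h3 with ⟨h3, h4⟩ | ⟨h3, h4⟩
    · refine ⟨?_, Or.inl ⟨i, hi, h3, h4⟩⟩
      rw [← h3, ← h4]; exact hne
    · refine ⟨?_, Or.inr ⟨i, hi, h3, h4⟩⟩
      rw [← h3, ← h4]; exact hne.symm
  · rintro ⟨-, ⟨e, he, h1, h2⟩ | ⟨e, he, h1, h2⟩⟩
    · obtain ⟨h3, h4⟩ := mem_Fo.1 he
      exact ⟨⟨e, h3⟩, h4, by show ends (fl e) = _; rw [ends_fl, h1, h2]⟩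
    · obtain ⟨h3, h4⟩ := mem_Fo.1 he
      exact ⟨⟨e, h3⟩, h4, by show ends (fl e) = _; rw [ends_fl, h1, h2, Sym2.eq_swap]⟩

theorem co_iff (W : Finset PEdge) (y : W → Bool) (u v : ℤ × ℤ) :
    Co (eW W) y u v ↔ v ∈ H342P.Plain.cluster (Fo W y) u := by
  unfold H342P.Plain.cluster Co
  rw [Set.mem_ofPred_eq, SimpleGraph.reachable_iff_reflTransGen]
  have : Ad (eW W) y = (H342P.Plain.openGraph (Fo W y)).Adj := by
    funext a b
    exact propext (ad_iff W y a b)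
  rw [this]

theorem eW_sd {W : Finset PEdge} (i : W) (u v : ℤ × ℤ) (h : eW W i = s(u, v)) : sd u v ≤ 1 :=
  sd_ends h

theorem sd_of_sq {m : ℕ} {a b : ℤ × ℤ} (h : (m : ℤ) ^ 2 ≤ H342P.Plain.sqDist a b) :
    (m + 1) / 2 ≤ sd a b := by
  unfold H342P.Plain.sqDist at h
  set k := sd a b with hk
  have h1 : (a.1 - b.1).natAbs ≤ k := by rw [hk]; unfold sd; omega
  have h2 : (a.2 - b.2).natAbs ≤ k := by rw [hk]; unfold sd; omega
  have h3 : (a.1 - b.1) ^ 2 ≤ (k : ℤ) ^ 2 := by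
    rw [← Int.natAbs_sq]
    exact_mod_cast Nat.pow_le_pow_left h1 2
  have h4 : (a.2 - b.2) ^ 2 ≤ (k : ℤ) ^ 2 := by
    rw [← Int.natAbs_sq]
    exact_mod_cast Nat.pow_le_pow_left h2 2
  have h5 : (m : ℤ) ^ 2 ≤ 2 * (k : ℤ) ^ 2 := by linarith
  have h6 : m ≤ 2 * k := by
    by_contra hcon
    have : (2 * (k : ℤ)) < m := by exact_mod_cast not_le.1 hcon
    nlinarith
  omega

/-- the function which defines the grid -/
noncomputable def ph (m : ℕ) (x : ℤ) (v : ℤ × ℤ) : ℤ := lev (Gr m x) v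

theorem ph_lip (m : ℕ) (x : ℤ) (u v : ℤ × ℤ) : ph m x u ≤ ph m x v + sd u v := by
  have := lev_lip (Gr_nonempty m x) u v
  unfold ph
  omega

theorem ph_zero {m : ℕ} {x : ℤ} {v : ℤ × ℤ} (h : v ∈ Gr m x) : ph m x v = 0 := by
  have := lev_le h v
  rw [sd_self] at this
  unfold ph
  omega

/-- an edge which touches a large cluster is explored -/
theorem touch_mem {m : ℕ} (hm : 1 ≤ m) (x : ℤ) {W : Finset PEdge} {y : W → Bool} {i : W}
    (h : Touches m (Fo W y) i) : i ∈ JJ (eW W) (ph ((m + 1) / 2) x) 0 y := by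
  obtain ⟨v, hv, a, ha, b, hb, hab⟩ := h
  have hva : Co (eW W) y v a := (co_iff W y v a).2 ha
  have hvb : Co (eW W) y v b := (co_iff W y v b).2 hb
  have h1 := sd_of_sq hab
  obtain ⟨w, hw, haw⟩ := meet_one (m := (m + 1) / 2) (by omega) x (en := eW W) eW_sd
    (hva.symm.trans hvb) h1
  rw [mem_JJ]
  have hvw : Co (eW W) y v w := hva.trans haw
  refine ⟨v, ?_, w, ph_zero hw, hvw.symm⟩
  show v ∈ ends (fl i)
  rw [ends_fl, Sym2.mem_iff]
  exact hv

theorem large_same {m : ℕ} (hm : 1 ≤ m) (x : ℤ) {W : Finset PEdge} {X : Type*}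
    {g : Finset PEdge → X} (hg : OfLarge m W g) {y y' : W → Bool}
    (h : ∀ i ∈ JJ (eW W) (ph ((m + 1) / 2) x) 0 y, y i = y' i) : g (Fo W y') = g (Fo W y) := by
  refine (hg _ _ (Fo_sub W y) (Fo_sub W y') ?_).symm
  intro e he
  by_cases heW : e ∈ W
  · have hmem : (⟨e, heW⟩ : W) ∈ JJ (eW W) (ph ((m + 1) / 2) x) 0 y := by
      rcases he with he | he
      · exact touch_mem hm x (i := ⟨e, heW⟩) he
      · rw [← stop_JJ _ _ y y' h]
        exact touch_mem hm x (i := ⟨e, heW⟩) he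
    have h1 := h _ hmem
    rw [mem_Fo, mem_Fo]
    constructor
    · rintro ⟨h2, h3⟩
      exact ⟨h2, by rw [← h1]; exact h3⟩
    · rintro ⟨h2, h3⟩
      exact ⟨h2, by rw [h1]; exact h3⟩
  · constructor
    · intro h2; exact absurd (Fo_sub W y h2) heW
    · intro h2; exact absurd (Fo_sub W y' h2) heW

open Classical in
/-- **The variance over the environment of functions of the large clusters.** -/
theorem var_large : ∃ C : ℝ, 0 < C ∧ ∀ (ν : PEdge → Measure unitInterval)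
    [∀ e, IsProbabilityMeasure (ν e)] (ρ : ℝ), (∀ e, ∫ p, (p : ℝ) ∂ν e = 1 / 2) → 0 ≤ ρ → ρ < 1 →
    (∀ e, rho (ν e) ≤ ρ) → ∀ (W : Finset PEdge) (m : ℕ), 1 ≤ m →
    ∀ g : Finset PEdge → ℝ, OfLarge m W g →
    ∫ q, ((∫ ω, g (opened W ω) ∂pl q) - ∫ ω, g (opened W ω) ∂fair PEdge) ^ 2 ∂evn ν ≤
      C * (ρ / (1 - ρ) ^ 2) * (m : ℝ) ^ (-(5 / 48 : ℝ)) *
        ∫ ω, g (opened W ω) ^ 2 ∂fair PEdge := by
  obtain ⟨C, hC, harm⟩ := arm_card
  refine ⟨120 * C, by linarith, ?_⟩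
  intro ν _ ρ hm hρ0 hρ1 hρ W m hm1 g hg
  set k : ℕ := (m + 1) / 2 with hk
  have hk1 : 1 ≤ k := by omega
  have hk0 : (0 : ℝ) < k := by exact_mod_cast hk1
  have hm0 : (0 : ℝ) < m := by exact_mod_cast hm1
  have hcard : ((Finset.Icc (1 : ℤ) k).card : ℝ) = k := by
    rw [Int.card_Icc]; simp
  have hδ : ∀ i : W, (i : PEdge) ∈ (Set.univ : Set PEdge) → ∑ x ∈ Finset.Icc (1 : ℤ) k,
      ((univ.filter fun ω => i ∈ JJ (eW W) (ph k x) 0 ω).card : ℝ) ≤
      (60 * C * (k : ℝ) ^ (-(5 / 48 : ℝ))) * (Finset.Icc (1 : ℤ) k).card *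
        (2 : ℝ) ^ Fintype.card W := by
    intro i _
    have h1 : ∀ x ∈ Finset.Icc (1 : ℤ) k,
        ((univ.filter fun ω => i ∈ JJ (eW W) (ph k x) 0 ω).card : ℝ) ≤
        (C * (2 : ℝ) ^ Fintype.card W) * hw (5 / 48) (lev (Gr k x) (H342P.Plain.fst i)) +
        (C * (2 : ℝ) ^ Fintype.card W) * hw (5 / 48) (lev (Gr k x) (H342P.Plain.snd i)) := by
      intro x _
      have h2 := card_touch (en := eW W) (ph k x) 0 i (u := H342P.Plain.fst i)
        (v := H342P.Plain.snd i) (ends_fl i)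
      have h3 := harm (fun i : W => fl i) (fun a b h => Subtype.ext (fl_inj h)) (ph k x)
        (ph_lip k x) 0 (H342P.Plain.fst i)
      have h4 := harm (fun i : W => fl i) (fun a b h => Subtype.ext (fl_inj h)) (ph k x)
        (ph_lip k x) 0 (H342P.Plain.snd i)
      have e : ∀ v, (0 - ph k x v).natAbs = lev (Gr k x) v := by
        intro v
        unfold ph
        omega
      rw [e] at h3 h4
      have h2' : ((univ.filter fun ω => i ∈ JJ (eW W) (ph k x) 0 ω).card : ℝ) ≤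
          ((univ.filter fun ω => H342P.Plain.fst i ∈ CC (eW W) (ph k x) 0 ω).card : ℝ) +
          ((univ.filter fun ω => H342P.Plain.snd i ∈ CC (eW W) (ph k x) 0 ω).card : ℝ) := by
        exact_mod_cast h2
      have h3' : ((univ.filter fun ω => H342P.Plain.fst i ∈ CC (eW W) (ph k x) 0 ω).card : ℝ) ≤
          C * hw (5 / 48) (lev (Gr k x) (H342P.Plain.fst i)) * (2 : ℝ) ^ Fintype.card W := h3
      have h4' : ((univ.filter fun ω => H342P.Plain.snd i ∈ CC (eW W) (ph k x) 0 ω).card : ℝ) ≤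
          C * hw (5 / 48) (lev (Gr k x) (H342P.Plain.snd i)) * (2 : ℝ) ^ Fintype.card W := h4
      linarith
    refine (sum_le_sum h1).trans ?_
    rw [sum_add_distrib, ← mul_sum, ← mul_sum, hcard]
    have h5 := sum_grid hk1 (H342P.Plain.fst i)
    have h6 := sum_grid hk1 (H342P.Plain.snd i)
    have h7 : (k : ℝ) ^ (1 - 5 / 48 : ℝ) = k * (k : ℝ) ^ (-(5 / 48 : ℝ)) := by
      rw [show (1 - 5 / 48 : ℝ) = 1 + (-(5 / 48)) by ring, Real.rpow_add hk0, Real.rpow_one]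
    rw [h7] at h5 h6
    have hCN : 0 ≤ C * (2 : ℝ) ^ Fintype.card W := by positivity
    have h8 := mul_le_mul_of_nonneg_left h5 hCN
    have h9 := mul_le_mul_of_nonneg_left h6 hCN
    calc _ ≤ C * (2 : ℝ) ^ Fintype.card W * (30 * (k * (k : ℝ) ^ (-(5 / 48 : ℝ)))) +
        C * (2 : ℝ) ^ Fintype.card W * (30 * (k * (k : ℝ) ^ (-(5 / 48 : ℝ)))) := add_le_add h8 h9
      _ = _ := by ring
  have key := evnF_var_le hm hρ0 hρ1 hρ W (U := Set.univ) (fun e he => absurd (Set.mem_univ e) he)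
    (g := fun y => g (Fo W y)) (X := Finset.Icc (1 : ℤ) k) ⟨1, by rw [Finset.mem_Icc]; omega⟩
    (J := fun x => JJ (eW W) (ph k x) 0) (fun x _ => stop_JJ _ _)
    (fun x _ y y' h => large_same hm1 x hg h) (δ := 60 * C * (k : ℝ) ^ (-(5 / 48 : ℝ)))
    (by positivity) hδ
  have e1 : ∀ ω : PEdge → Bool, g (opened W ω) = g (Fo W fun i : W => ω i) := fun ω => by
    rw [opened_eq]
  have e2 : mn W (fun y => g (Fo W y)) = ∫ ω, g (opened W ω) ∂fair PEdge := by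
    rw [← fair_int]
    simp only [e1]
  have e3 : mn W (fun y => g (Fo W y) ^ 2) = ∫ ω, g (opened W ω) ^ 2 ∂fair PEdge := by
    rw [← fair_int]
    simp only [e1]
  rw [e2, e3] at key
  simp only [← e1] at key
  refine key.trans ?_
  have hI : 0 ≤ ∫ ω, g (opened W ω) ^ 2 ∂fair PEdge := integral_nonneg fun _ => sq_nonneg _
  have hP : 0 ≤ ρ / (1 - ρ) ^ 2 := by
    have : 0 < 1 - ρ := by linarith
    positivity
  have h10 : (k : ℝ) ^ (-(5 / 48 : ℝ)) ≤ 2 * (m : ℝ) ^ (-(5 / 48 : ℝ)) := by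
    have h11 : (m : ℝ) / 2 ≤ k := by
      have : m ≤ 2 * k := by omega
      have : (m : ℝ) ≤ 2 * k := by exact_mod_cast this
      linarith
    have h12 : (k : ℝ) ^ (-(5 / 48 : ℝ)) ≤ ((m : ℝ) / 2) ^ (-(5 / 48 : ℝ)) :=
      Real.rpow_le_rpow_of_nonpos (by positivity) h11 (by norm_num)
    refine h12.trans ?_
    rw [Real.div_rpow hm0.le (by norm_num), div_eq_mul_inv, mul_comm]
    refine mul_le_mul_of_nonneg_right ?_ (by positivity)
    rw [← Real.rpow_neg (by norm_num), neg_neg]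
    calc (2 : ℝ) ^ (5 / 48 : ℝ) ≤ 2 ^ (1 : ℝ) :=
          Real.rpow_le_rpow_of_exponent_le (by norm_num) (by norm_num)
      _ = 2 := Real.rpow_one 2
  calc 60 * C * (k : ℝ) ^ (-(5 / 48 : ℝ)) * (ρ / (1 - ρ) ^ 2) *
        ∫ ω, g (opened W ω) ^ 2 ∂fair PEdge
      ≤ 60 * C * (2 * (m : ℝ) ^ (-(5 / 48 : ℝ))) * (ρ / (1 - ρ) ^ 2) *
        ∫ ω, g (opened W ω) ^ 2 ∂fair PEdge := by gcongr
    _ = _ := by ring

end Pool.Agent.X136.CQ
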