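import Pool.Agent.X136.CQ.Main

set_option autoImplicit false

/-!
# Limits in law
-/

namespace Pool.Agent.X136.CQ

open Pool.Agent.X136.QC Pool.Agent.X136.QE MeasureTheory ProbabilityTheory H342P.Plain
open Filter Topology
open Pool.Agent.X136.CQ.Model (opened OfLargest measurable_opened lawQ)

section Gen

variable {Ω : Type*} [MeasurableSpace Ω] {P : Measure Ω} [IsProbabilityMeasure P]
  {g : ℕ → Ω → ℝ} {a : ℕ → ℝ}

theorem ae_zero' (hg : ∀ k, Measurable (g k)) (hb : ∀ k ω, |g k ω| ≤ 2) {c : ℕ → ℝ}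
    (hc : Summable c) (h : ∀ k, ∫ ω, g k ω ^ 2 ∂P ≤ c k) :
    ∀ᵐ ω ∂P, Tendsto (fun k => g k ω) atTop (𝓝 0) := by
  have hc0 : ∀ k, 0 ≤ c k := fun k => (integral_nonneg fun q => sq_nonneg _).trans (h k)
  have hi : ∀ k, Integrable (fun ω => g k ω ^ 2) P := by
    intro k
    refine Integrable.of_bound ((hg k).pow_const 2).aestronglyMeasurable 4
      (Eventually.of_forall fun ω => ?_)
    have := abs_le.1 (hb k ω)
    rw [Real.norm_eq_abs, abs_of_nonneg (sq_nonneg _)]
    nlinarith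
  have h1 : ∫⁻ q, ∑' k, ENNReal.ofReal (g k q ^ 2) ∂P ≠ ⊤ := by
    rw [lintegral_tsum fun k => ((hg k).pow_const 2).ennreal_ofReal.aemeasurable]
    have h2 : ∀ k, ∫⁻ q, ENNReal.ofReal (g k q ^ 2) ∂P ≤ ENNReal.ofReal (c k) := by
      intro k
      rw [← ofReal_integral_eq_lintegral_ofReal (hi k) (Eventually.of_forall fun q => sq_nonneg _)]
      exact ENNReal.ofReal_le_ofReal (h k)
    refine ne_top_of_le_ne_top ?_ (ENNReal.tsum_le_tsum h2)
    rw [← ENNReal.ofReal_tsum_of_nonneg hc0 hc]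
    exact ENNReal.ofReal_ne_top
  have h2 := ae_lt_top (Measurable.ennreal_tsum fun k =>
    ((hg k).pow_const 2).ennreal_ofReal) h1
  filter_upwards [h2] with q hq
  have h3 := ENNReal.tendsto_atTop_zero_of_tsum_ne_top hq.ne
  have h4 : Tendsto (fun k => g k q ^ 2) atTop (𝓝 0) := by
    have h5 := (ENNReal.tendsto_toReal (a := 0) ENNReal.zero_ne_top).comp h3
    rw [ENNReal.toReal_zero] at h5
    refine h5.congr fun k => ?_
    simp only [Function.comp]
    exact ENNReal.toReal_ofReal (sq_nonneg _)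
  have h5 : Tendsto (fun k => |g k q|) atTop (𝓝 0) := by
    have h6 := (Real.continuous_sqrt.tendsto 0).comp h4
    rw [Real.sqrt_zero] at h6
    refine h6.congr fun k => ?_
    simp only [Function.comp]
    exact Real.sqrt_sq_eq_abs _
  exact (tendsto_zero_iff_abs_tendsto_zero _).2 h5

/-- Chebyshev -/
theorem cheb' (hg : ∀ k, Measurable (g k)) (hb : ∀ k ω, |g k ω| ≤ 2)
    (h : Tendsto (fun k => ∫ ω, g k ω ^ 2 ∂P) atTop (𝓝 0)) {ε : ℝ} (hε : 0 < ε) :
    Tendsto (fun k => P.real {ω | ε ≤ |g k ω|}) atTop (𝓝 0) := by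
  have h1 := h.div_const (ε ^ 2)
  rw [zero_div] at h1
  refine squeeze_zero (fun k => measureReal_nonneg) (fun k => ?_) h1
  have hi : Integrable (fun ω => g k ω ^ 2) P := by
    refine Integrable.of_bound ((hg k).pow_const 2).aestronglyMeasurable 4
      (Eventually.of_forall fun ω => ?_)
    have := abs_le.1 (hb k ω)
    rw [Real.norm_eq_abs, abs_of_nonneg (sq_nonneg _)]
    nlinarith
  have h2 := mul_meas_ge_le_integral_of_nonneg (μ := P) (f := fun ω => g k ω ^ 2)
    (Eventually.of_forall fun ω => sq_nonneg _) hi (ε ^ 2)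
  rw [le_div_iff₀ (by positivity), mul_comm]
  refine le_trans (mul_le_mul_of_nonneg_left (measureReal_mono ?_) (sq_nonneg ε)) h2
  intro ω hω
  simp only [Set.mem_ofPred_eq] at hω ⊢
  rw [← sq_abs (g k ω)]
  exact pow_le_pow_left₀ hε.le hω 2

/-- limits in probability -/
theorem prob_iff' {X : ℕ → Ω → ℝ} (hg : ∀ k, Measurable (X k)) (hX : ∀ k ω, |X k ω| ≤ 1)
    (ha : ∀ k, |a k| ≤ 1)
    (h : Tendsto (fun k => ∫ ω, (X k ω - a k) ^ 2 ∂P) atTop (𝓝 0)) (Q : ℝ) :
    Tendsto a atTop (𝓝 Q) ↔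
      ∀ ε : ℝ, 0 < ε → Tendsto (fun k => P.real {ω | ε ≤ |X k ω - Q|}) atTop (𝓝 0) := by
  have hc := fun (ε : ℝ) (hε : 0 < ε) => cheb' (P := P) (g := fun k ω => X k ω - a k)
    (fun k => (hg k).sub_const _) (fun k ω => by
      have e1 := abs_le.1 (hX k ω)
      have e2 := abs_le.1 (ha k)
      rw [abs_le]
      constructor <;> linarith [e1.1, e1.2, e2.1, e2.2]) h hε
  constructor
  · intro hQ ε hε
    refine squeeze_zero' (Eventually.of_forall fun k => measureReal_nonneg) ?_ (hc _ (half_pos hε))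
    rw [Metric.tendsto_atTop] at hQ
    obtain ⟨N, hN⟩ := hQ (ε / 2) (half_pos hε)
    filter_upwards [eventually_ge_atTop N] with k hk
    have h2 := hN k hk
    rw [Real.dist_eq] at h2
    refine measureReal_mono ?_
    intro q hq
    simp only [Set.mem_ofPred_eq] at hq ⊢
    have h3 := abs_sub_le (X k q) (a k) Q
    linarith
  · intro hQ
    rw [Metric.tendsto_atTop]
    intro ε hε
    have h1 := (hc _ (half_pos hε)).add (hQ (ε / 2) (half_pos hε))
    rw [add_zero, Metric.tendsto_atTop] at h1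
    obtain ⟨N, hN⟩ := h1 1 one_pos
    refine ⟨N, fun k hk => ?_⟩
    rw [Real.dist_eq]
    by_contra hcon
    push Not at hcon
    have h2 := hN k hk
    rw [Real.dist_eq, sub_zero] at h2
    have h3 := (le_abs_self _).trans_lt h2
    have h4 : (Set.univ : Set Ω) ⊆ {q | ε / 2 ≤ |X k q - a k|} ∪ {q | ε / 2 ≤ |X k q - Q|} := by
      intro q _
      by_contra hq
      simp only [Set.mem_union, Set.mem_ofPred_eq, not_or, not_le] at hq
      obtain ⟨a1, a2⟩ := hq
      have h5 := abs_sub_le (a k) (X k q) Q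
      rw [abs_sub_comm (a k) (X k q)] at h5
      linarith
    have h5 := (measureReal_mono (μ := P) h4).trans (measureReal_union_le _ _)
    rw [probReal_univ] at h5
    linarith

end Gen

/-- the library's law -/
theorem lawOf_eq {X : Type*} [MeasurableSpace X] (n : ℕ) (f : Finset PEdge → X) :
    H342L.lawOf n f = lawQ Model.half n f := by
  apply Subtype.ext
  refine Measure.ext fun G hG => ?_
  show (H342L.lawOf n f : Measure X) G = ((fair PEdge).map fun ω => f (opened (edges n) ω)) G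
  rw [H342L.lawOf_apply n f hG, Measure.map_apply (measurable_opened _ f) hG, ← fair_prob,
    ofReal_measureReal]
  rfl

theorem int_lawQ {X : Type*} [MeasurableSpace X] (q : PEdge → unitInterval) (n : ℕ)
    (f : Finset PEdge → X) {h : X → ℝ} (hh : Measurable h) :
    ∫ x, h x ∂(lawQ q n f : Measure X) = ∫ ω, h (f (opened (edges n) ω)) ∂pl q := by
  show ∫ x, h x ∂((pl q).map fun ω => f (opened (edges n) ω)) = _
  rw [integral_map (measurable_opened _ f).aemeasurable hh.aestronglyMeasurable]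

theorem int_lawOf {X : Type*} [MeasurableSpace X] (n : ℕ)
    (f : Finset PEdge → X) {h : X → ℝ} (hh : Measurable h) :
    ∫ x, h x ∂(H342L.lawOf n f : Measure X) = ∫ ω, h (f (opened (edges n) ω)) ∂fair PEdge := by
  rw [lawOf_eq]
  exact int_lawQ Model.half n f hh

theorem conv_int {X : Type} [PseudoMetricSpace X] [MeasurableSpace X] [BorelSpace X]
    {P : ℕ → ProbabilityMeasure X} {μ : ProbabilityMeasure X} (hP : Tendsto P atTop (𝓝 μ))
    {F : X → ℝ} (hF1 : ∀ x, 0 ≤ F x ∧ F x ≤ 1) {L : NNReal} (hL : LipschitzWith L F) :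
    Tendsto (fun i => ∫ x, F x ∂(P i : Measure X)) atTop (𝓝 (∫ x, F x ∂(μ : Measure X))) := by
  rw [ProbabilityMeasure.tendsto_iff_forall_integral_tendsto] at hP
  exact hP (BoundedContinuousFunction.mkOfBound ⟨F, hL.continuous⟩ 1 fun x y => by
    have c1 := hF1 x
    have c2 := hF1 y
    rw [Real.dist_eq, abs_le]
    constructor
    · show -1 ≤ F x - F y
      linarith [c1.1, c1.2, c2.1, c2.2]
    · show F x - F y ≤ 1
      linarith [c1.1, c1.2, c2.1, c2.2])

/-- **Almost sure limits along sparse sequences of scales.** -/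
theorem ae_law (ν : PEdge → Measure unitInterval) [∀ e, IsProbabilityMeasure (ν e)] {ρ : ℝ}
    (hm : ∀ e, ∫ p, (p : ℝ) ∂ν e = 1 / 2) (hρ0 : 0 ≤ ρ) (hρ1 : ρ < 1)
    (hρ : ∀ e, rho (ν e) ≤ ρ) {k : ℕ → ℕ} (hk : ∀ i, 1 ≤ k i)
    (hks : Summable fun i => (k i : ℝ) ^ (-(1 / 10 : ℝ)))
    {X : Type} [PseudoMetricSpace X] [SecondCountableTopology X] [MeasurableSpace X]
    [BorelSpace X] {f : ℕ → Finset PEdge → X} (hf : ∀ i, OfLargest (k i) (f i)) :
    ∀ᵐ q ∂evn ν, ∀ φ : ℕ → ℕ, Tendsto φ atTop atTop → ∀ μ : ProbabilityMeasure X,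
      Tendsto (fun i => lawQ q (k (φ i)) (f (φ i))) atTop (𝓝 μ) ↔
        Tendsto (fun i => H342L.lawOf (k (φ i)) (f (φ i))) atTop (𝓝 μ) := by
  obtain ⟨C, hC, hvar⟩ := var_rate
  obtain ⟨F, hF1, hF2, hF3⟩ := exists_family (Ω := X)
  have hFa : ∀ j x, |F j x| ≤ 1 := by
    intro j x
    rw [abs_of_nonneg (hF1 j x).1]
    exact (hF1 j x).2
  have hae : ∀ j, ∀ᵐ q ∂evn ν, Tendsto (fun i => (∫ ω, F j (f i (opened (edges (k i)) ω)) ∂pl q) -
      ∫ ω, F j (f i (opened (edges (k i)) ω)) ∂fair PEdge) atTop (𝓝 0) := by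
    intro j
    refine ae_zero' (c := fun i => C * (1 + ρ / (1 - ρ) ^ 2) * (k i : ℝ) ^ (-(1 / 10 : ℝ)))
      (fun i => (measurable_exp (edges (k i)) fun F' => F j (f i F')).sub_const _)
      (fun i q => ?_) (hks.mul_left _)
      fun i => hvar ν ρ hm hρ0 hρ1 hρ (k i) (hk i) (f i) (hf i) (F j) (hFa j)
    have e1 := abs_le.1 (abs_int_le (edges (k i)) (g := fun F' => F j (f i F'))
      (fun F' => hFa j _) (pl q))
    have e2 := abs_le.1 (abs_int_le (edges (k i)) (g := fun F' => F j (f i F'))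
      (fun F' => hFa j _) (fair PEdge))
    rw [abs_le]
    constructor <;> linarith [e1.1, e1.2, e2.1, e2.2]
  filter_upwards [ae_all_iff.2 hae] with q hq φ hφ μ
  have hmeas : ∀ j, Measurable (F j) := fun j => by
    obtain ⟨L, hL⟩ := hF2 j
    exact hL.continuous.measurable
  have hq' : ∀ j, Tendsto (fun i => (∫ x, F j x ∂(lawQ q (k i) (f i) : Measure X)) -
      ∫ x, F j x ∂(H342L.lawOf (k i) (f i) : Measure X)) atTop (𝓝 0) := by
    intro j
    refine (hq j).congr fun i => ?_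
    rw [int_lawQ q (k i) (f i) (hmeas j), int_lawOf (k i) (f i) (hmeas j)]
  constructor
  · intro h
    refine hF3 _ μ fun j => ?_
    obtain ⟨L, hL⟩ := hF2 j
    have h1 := conv_int h (hF1 j) hL
    have h2 := h1.sub ((hq' j).comp hφ)
    simp only [Function.comp, sub_sub_cancel, sub_zero] at h2
    exact h2
  · intro h
    refine hF3 _ μ fun j => ?_
    obtain ⟨L, hL⟩ := hF2 j
    have h1 := conv_int h (hF1 j) hL
    have h2 := ((hq' j).comp hφ).add h1
    simp only [Function.comp, sub_add_cancel, zero_add] at h2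
    exact h2

/-- **Limits in probability along all sequences of scales.** -/
theorem prob_law (ν : PEdge → Measure unitInterval) [∀ e, IsProbabilityMeasure (ν e)] {ρ : ℝ}
    (hm : ∀ e, ∫ p, (p : ℝ) ∂ν e = 1 / 2) (hρ0 : 0 ≤ ρ) (hρ1 : ρ < 1)
    (hρ : ∀ e, rho (ν e) ≤ ρ) {k : ℕ → ℕ} (hk : Tendsto k atTop atTop)
    {X : Type} [PseudoMetricSpace X] [SecondCountableTopology X] [MeasurableSpace X]
    [BorelSpace X] {f : ℕ → Finset PEdge → X} (hf : ∀ i, OfLargest (k i) (f i))
    (μ : ProbabilityMeasure X) :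
    Tendsto (fun i => H342L.lawOf (k i) (f i)) atTop (𝓝 μ) ↔
      ∀ h : X → ℝ, Continuous h → (∀ x, |h x| ≤ 1) → ∀ ε : ℝ, 0 < ε →
        Tendsto (fun i => (evn ν).real {q | ε ≤ |(∫ x, h x ∂(lawQ q (k i) (f i) : Measure X)) -
          ∫ x, h x ∂(μ : Measure X)|}) atTop (𝓝 0) := by
  obtain ⟨C, hC, hvar⟩ := var_rate
  have key : ∀ h : X → ℝ, Continuous h → (∀ x, |h x| ≤ 1) →
      (Tendsto (fun i => ∫ x, h x ∂(H342L.lawOf (k i) (f i) : Measure X)) atTop
        (𝓝 (∫ x, h x ∂(μ : Measure X))) ↔ ∀ ε : ℝ, 0 < ε →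
        Tendsto (fun i => (evn ν).real {q | ε ≤ |(∫ x, h x ∂(lawQ q (k i) (f i) : Measure X)) -
          ∫ x, h x ∂(μ : Measure X)|}) atTop (𝓝 0)) := by
    intro h hc hh
    have e1 : ∀ q i, ∫ x, h x ∂(lawQ q (k i) (f i) : Measure X) =
        ∫ ω, h (f i (opened (edges (k i)) ω)) ∂pl q := fun q i => int_lawQ q _ _ hc.measurable
    have e2 : ∀ i, ∫ x, h x ∂(H342L.lawOf (k i) (f i) : Measure X) =
        ∫ ω, h (f i (opened (edges (k i)) ω)) ∂fair PEdge := fun i => int_lawOf _ _ hc.measurable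
    simp only [e1, e2]
    refine prob_iff' (P := evn ν) (fun i => measurable_exp (edges (k i)) fun F' => h (f i F'))
      (fun i q => abs_int_le (edges (k i)) (g := fun F' => h (f i F')) (fun F' => hh _) (pl q))
      (fun i => abs_int_le (edges (k i)) (g := fun F' => h (f i F')) (fun F' => hh _) _) ?_ _
    have h1 : Tendsto (fun i => C * (1 + ρ / (1 - ρ) ^ 2) * (k i : ℝ) ^ (-(1 / 10 : ℝ))) atTop
        (𝓝 (C * (1 + ρ / (1 - ρ) ^ 2) * 0)) :=
      ((tendsto_rpow_neg_atTop (by norm_num : (0 : ℝ) < 1 / 10)).comp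
        (tendsto_natCast_atTop_atTop.comp hk)).const_mul _
    rw [mul_zero] at h1
    refine squeeze_zero' (Eventually.of_forall fun i => integral_nonneg fun q => sq_nonneg _) ?_ h1
    filter_upwards [hk.eventually (eventually_ge_atTop 1)] with i hi
    exact hvar ν ρ hm hρ0 hρ1 hρ (k i) hi (f i) (hf i) h hh
  constructor
  · intro hμ h hc hh
    refine (key h hc hh).1 ?_
    rw [ProbabilityMeasure.tendsto_iff_forall_integral_tendsto] at hμ
    exact hμ (BoundedContinuousFunction.mkOfBound ⟨h, hc⟩ 2 fun x y => by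
      have c1 := abs_le.1 (hh x)
      have c2 := abs_le.1 (hh y)
      rw [Real.dist_eq, abs_le]
      constructor
      · show -2 ≤ h x - h y
        linarith [c1.1, c1.2, c2.1, c2.2]
      · show h x - h y ≤ 2
        linarith [c1.1, c1.2, c2.1, c2.2])
  · intro H
    obtain ⟨F, hF1, hF2, hF3⟩ := exists_family (Ω := X)
    refine hF3 _ μ fun j => ?_
    obtain ⟨L, hL⟩ := hF2 j
    have hFa : ∀ x, |F j x| ≤ 1 := by
      intro x
      rw [abs_of_nonneg (hF1 j x).1]
      exact (hF1 j x).2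
    exact (key (F j) hL.continuous hFa).2 (H (F j) hL.continuous hFa)

end Pool.Agent.X136.CQ
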