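import Pool.Agent.X136.CQ.Perim
import Pool.Agent.X136.CQ.Count2

set_option autoImplicit false

/-!
# The variance of functions of the clusters of largest diameter
-/

namespace Pool.Agent.X136.CQ

open Finset Pool.Agent.X136.QC Pool.Agent.X136.QE MeasureTheory ProbabilityTheory H342P.Plain
open Filter Topology
open Pool.Agent.X136.CQ.Model (opened Touches OfLarge OfLargest measurable_opened)

theorem int_opened (W : Finset PEdge) (g : Finset PEdge → ℝ) (P : Measure (PEdge → Bool)) :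
    ∫ ω, g (opened W ω) ∂P = ∫ ω, g (Fo W fun i : W => ω i) ∂P := by
  simp only [opened_eq]

theorem integrable_opened (W : Finset PEdge) {g : Finset PEdge → ℝ} {B : ℝ}
    (hg : ∀ F, |g F| ≤ B) (P : Measure (PEdge → Bool)) [IsProbabilityMeasure P] :
    Integrable (fun ω => g (opened W ω)) P :=
  Integrable.of_bound (measurable_opened W g).aestronglyMeasurable B
    (Eventually.of_forall fun ω => hg _)

theorem meas_opened (W : Finset PEdge) (A : Finset PEdge → Prop) :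
    MeasurableSet {ω : PEdge → Bool | A (opened W ω)} := by
  letI : MeasurableSpace Prop := ⊤
  exact (measurable_opened W A) (MeasurableSpace.measurableSet_top (s := {p | p}))

theorem abs_int_le (W : Finset PEdge) {g : Finset PEdge → ℝ} (hg : ∀ F, |g F| ≤ 1)
    (P : Measure (PEdge → Bool)) [IsProbabilityMeasure P] : |∫ ω, g (opened W ω) ∂P| ≤ 1 := by
  have h := norm_integral_le_of_norm_le_const (μ := P) (f := fun ω => g (opened W ω)) (C := 1)
    (Eventually.of_forall fun ω => hg _)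
  simpa using h

/-- the effect of the truncation -/
theorem trunc_le {X : Type*} (n m : ℕ) (f : Finset PEdge → X) {h : X → ℝ} (hh : ∀ x, |h x| ≤ 1)
    (P : Measure (PEdge → Bool)) [IsProbabilityMeasure P] :
    |(∫ ω, h (f (opened (edges n) ω)) ∂P) - ∫ ω, gt m f h (opened (edges n) ω) ∂P| ≤
      P.real {ω | ¬ DD m (opened (edges n) ω)} := by
  classical
  have hg : ∀ F, |gt m f h F| ≤ 1 := by
    intro F
    unfold gt
    split_ifs
    · exact hh _
    · simp
  rw [← integral_sub (integrable_opened (edges n) (g := fun F => h (f F)) (fun F => hh _) P)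
    (integrable_opened (edges n) hg P)]
  refine (abs_integral_le_integral_abs).trans ?_
  have hm := meas_opened (edges n) (fun F => ¬ DD m F)
  have e : P.real {ω | ¬ DD m (opened (edges n) ω)} =
      ∫ ω, {ω | ¬ DD m (opened (edges n) ω)}.indicator (fun _ => (1 : ℝ)) ω ∂P := by
    rw [integral_indicator_const _ hm]; simp
  rw [e]
  refine integral_mono_of_nonneg (Eventually.of_forall fun ω => abs_nonneg _)
    ((integrable_const _).indicator hm) (Eventually.of_forall fun ω => ?_)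
  show |h (f (opened (edges n) ω)) - gt m f h (opened (edges n) ω)| ≤ _
  unfold gt
  by_cases hD : DD m (opened (edges n) ω)
  · rw [if_pos hD, sub_self, abs_zero]
    exact Set.indicator_nonneg (fun _ _ => zero_le_one) _
  · rw [if_neg hD, sub_zero, Set.indicator_of_mem hD]
    exact hh _

open Classical in
theorem mean_real (ν : PEdge → Measure unitInterval) [∀ e, IsProbabilityMeasure (ν e)]
    (hm : ∀ e, ∫ p, (p : ℝ) ∂ν e = 1 / 2) (n : ℕ) (A : Finset PEdge → Prop) :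
    ∫ q, (pl q).real {ω | A (opened (edges n) ω)} ∂evn ν = prob n A := by
  have h1 : ∀ P : Measure (PEdge → Bool), P.real {ω | A (opened (edges n) ω)} =
      ∫ ω, (fun y : edges n → Bool => if A (Fo (edges n) y) then (1 : ℝ) else 0)
        (fun i : edges n => ω i) ∂P := by
    intro P
    have hm := meas_opened (edges n) A
    have e : P.real {ω | A (opened (edges n) ω)} =
        ∫ ω, {ω | A (opened (edges n) ω)}.indicator (fun _ => (1 : ℝ)) ω ∂P := by
      rw [integral_indicator_const _ hm]; simp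
    rw [e]
    refine integral_congr_ae (Eventually.of_forall fun ω => ?_)
    simp only [Set.indicator_apply, Set.mem_ofPred_eq, opened_eq]
  have h2 := evn_int (ν := ν) hm (edges n) (fun y => if A (Fo (edges n) y) then (1 : ℝ) else 0)
  simp only [← h1] at h2
  rw [h2, ← fair_int, ← h1, fair_prob]

theorem integrable_real (ν : PEdge → Measure unitInterval) [∀ e, IsProbabilityMeasure (ν e)]
    (n : ℕ) (A : Finset PEdge → Prop) :
    Integrable (fun q => (pl q).real {ω | A (opened (edges n) ω)}) (evn ν) := by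
  classical
  have h1 : ∀ P : Measure (PEdge → Bool), P.real {ω | A (opened (edges n) ω)} =
      ∫ ω, (fun y : edges n → Bool => if A (Fo (edges n) y) then (1 : ℝ) else 0)
        (fun i : edges n => ω i) ∂P := by
    intro P
    have hm := meas_opened (edges n) A
    have e : P.real {ω | A (opened (edges n) ω)} =
        ∫ ω, {ω | A (opened (edges n) ω)}.indicator (fun _ => (1 : ℝ)) ω ∂P := by
      rw [integral_indicator_const _ hm]; simp
    rw [e]
    refine integral_congr_ae (Eventually.of_forall fun ω => ?_)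
    simp only [Set.indicator_apply, Set.mem_ofPred_eq, opened_eq]
  simp only [h1]
  exact integrable_pl_int (ν := ν) (edges n)
    (fun y => if A (Fo (edges n) y) then (1 : ℝ) else 0)

theorem measurable_exp (W : Finset PEdge) (g : Finset PEdge → ℝ) :
    Measurable fun q : PEdge → unitInterval => ∫ ω, g (opened W ω) ∂pl q := by
  simp only [int_opened]
  exact measurable_pl_int W fun y => g (Fo W y)

open Classical in
/-- **Functions of the clusters of largest diameter.** -/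
theorem var_largest : ∃ C : ℝ, 0 < C ∧ ∀ (ν : PEdge → Measure unitInterval)
    [∀ e, IsProbabilityMeasure (ν e)] (ρ : ℝ), (∀ e, ∫ p, (p : ℝ) ∂ν e = 1 / 2) → 0 ≤ ρ → ρ < 1 →
    (∀ e, rho (ν e) ≤ ρ) → ∀ (n m K : ℕ), 1 ≤ m → K * (3 * m + 1) ≤ n + 1 →
    ∀ {X : Type} (f : Finset PEdge → X), OfLargest n f → ∀ h : X → ℝ, (∀ x, |h x| ≤ 1) →
    ∫ q, ((∫ ω, h (f (opened (edges n) ω)) ∂pl q) -
      ∫ ω, h (f (opened (edges n) ω)) ∂fair PEdge) ^ 2 ∂evn ν ≤
      6 * (1 / 2) ^ K + C * (ρ / (1 - ρ) ^ 2) * (m : ℝ) ^ (-(5 / 48 : ℝ)) := by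
  obtain ⟨C, hC, hvar⟩ := var_large
  refine ⟨3 * C, by positivity, ?_⟩
  intro ν _ ρ hm hρ0 hρ1 hρ n m K hm1 hK X f hf h hh
  have hgl := gt_large (n := n) (m := 2 * m) (by omega) hf h
  have hv := hvar ν ρ hm hρ0 hρ1 hρ (edges n) (2 * m) (by omega) (gt (2 * m) f h) hgl
  have hg1 : ∀ F, |gt (2 * m) f h F| ≤ 1 := by
    intro F
    unfold gt
    split_ifs
    · exact hh _
    · simp
  set a : (PEdge → unitInterval) → ℝ := fun q => ∫ ω, h (f (opened (edges n) ω)) ∂pl q with ha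
  set b : (PEdge → unitInterval) → ℝ := fun q => ∫ ω, gt (2 * m) f h (opened (edges n) ω) ∂pl q
    with hb
  set a0 : ℝ := ∫ ω, h (f (opened (edges n) ω)) ∂fair PEdge with ha0
  set b0 : ℝ := ∫ ω, gt (2 * m) f h (opened (edges n) ω) ∂fair PEdge with hb0
  set t : (PEdge → unitInterval) → ℝ := fun q => (pl q).real {ω | ¬ DD (2 * m) (opened (edges n) ω)}
    with ht
  set t0 : ℝ := (fair PEdge).real {ω | ¬ DD (2 * m) (opened (edges n) ω)} with ht0
  have h1 : ∀ q, |a q - b q| ≤ t q := fun q => trunc_le n (2 * m) f hh (pl q)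
  have h2 : |a0 - b0| ≤ t0 := trunc_le n (2 * m) f hh (fair PEdge)
  have ht1 : ∀ q, t q ≤ 1 := fun q => measureReal_le_one
  have ht01 : t0 ≤ 1 := measureReal_le_one
  have htn : ∀ q, 0 ≤ t q := fun q => measureReal_nonneg
  have ht0n : 0 ≤ t0 := measureReal_nonneg
  have hbm : Measurable b := measurable_exp (edges n) (gt (2 * m) f h)
  have hb1 : ∀ q, |b q| ≤ 1 := fun q => abs_int_le (edges n) hg1 (pl q)
  have hb01 : |b0| ≤ 1 := abs_int_le (edges n) hg1 (fair PEdge)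
  have hbi : Integrable (fun q => (b q - b0) ^ 2) (evn ν) := by
    refine Integrable.of_bound ((hbm.sub_const b0).pow_const 2).aestronglyMeasurable 4
      (Eventually.of_forall fun q => ?_)
    have e1 := abs_le.1 (hb1 q)
    have e2 := abs_le.1 hb01
    rw [Real.norm_eq_abs, abs_of_nonneg (sq_nonneg _)]
    nlinarith
  have hti : Integrable t (evn ν) := integrable_real ν n fun F => ¬ DD (2 * m) F
  have hpt : ∀ q, (a q - a0) ^ 2 ≤ 3 * (b q - b0) ^ 2 + (3 * t q + 3 * t0) := by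
    intro q
    have e1 := abs_le.1 (h1 q)
    have e2 := abs_le.1 h2
    have e3 := ht1 q
    have e4 := htn q
    set x := a q - b q
    set y := a0 - b0
    set z := b q - b0
    have e5 : a q - a0 = x + z - y := by simp only [x, y, z]; ring
    have e6 : x ^ 2 ≤ t q := by
      have : x ^ 2 ≤ t q ^ 2 := sq_le_sq' e1.1 e1.2
      nlinarith
    have e7 : y ^ 2 ≤ t0 := by
      have : y ^ 2 ≤ t0 ^ 2 := sq_le_sq' e2.1 e2.2
      nlinarith
    rw [e5]
    nlinarith [sq_nonneg (x + y), sq_nonneg (x - z), sq_nonneg (y + z)]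
  have hint : ∫ q, (a q - a0) ^ 2 ∂evn ν ≤
      ∫ q, (3 * (b q - b0) ^ 2 + (3 * t q + 3 * t0)) ∂evn ν :=
    integral_mono_of_nonneg (Eventually.of_forall fun q => sq_nonneg _)
      ((hbi.const_mul 3).add ((hti.const_mul 3).add (integrable_const _)))
      (Eventually.of_forall hpt)
  rw [integral_add (f := fun q => 3 * (b q - b0) ^ 2) (g := fun q => 3 * t q + 3 * t0)
      (hbi.const_mul 3) ((hti.const_mul 3).add (integrable_const _)),
    integral_add (f := fun q => 3 * t q) (g := fun _ => 3 * t0) (hti.const_mul 3)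
      (integrable_const _), integral_const_mul, integral_const_mul] at hint
  have e1 : ∫ q, t q ∂evn ν = prob n (fun F => ¬ DD (2 * m) F) :=
    mean_real ν hm n fun F => ¬ DD (2 * m) F
  have e2 : t0 = prob n (fun F => ¬ DD (2 * m) F) := fair_prob n fun F => ¬ DD (2 * m) F
  have e3 := prob_notDD (n := n) (m := m) (K := K) hm1 hK
  simp only [integral_const, probReal_univ, smul_eq_mul, one_mul] at hint
  rw [e1, e2] at hint
  have hI : ∫ ω, gt (2 * m) f h (opened (edges n) ω) ^ 2 ∂fair PEdge ≤ 1 := by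
    have := abs_int_le (edges n) (g := fun F => gt (2 * m) f h F ^ 2) (fun F => by
      rw [abs_of_nonneg (sq_nonneg _)]
      have := abs_le.1 (hg1 F)
      nlinarith) (fair PEdge)
    exact (abs_le.1 this).2
  have hP : 0 ≤ ρ / (1 - ρ) ^ 2 := by
    have : 0 < 1 - ρ := by linarith
    positivity
  have hm0 : (0 : ℝ) < m := by exact_mod_cast hm1
  have hmm : ((2 * m : ℕ) : ℝ) ^ (-(5 / 48 : ℝ)) ≤ (m : ℝ) ^ (-(5 / 48 : ℝ)) :=
    Real.rpow_le_rpow_of_nonpos hm0 (by push_cast; linarith) (by norm_num)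
  have e4 : C * (ρ / (1 - ρ) ^ 2) * ((2 * m : ℕ) : ℝ) ^ (-(5 / 48 : ℝ)) *
      ∫ ω, gt (2 * m) f h (opened (edges n) ω) ^ 2 ∂fair PEdge ≤
      C * (ρ / (1 - ρ) ^ 2) * (m : ℝ) ^ (-(5 / 48 : ℝ)) := by
    have h0 : 0 ≤ C * (ρ / (1 - ρ) ^ 2) * ((2 * m : ℕ) : ℝ) ^ (-(5 / 48 : ℝ)) := by positivity
    calc _ ≤ C * (ρ / (1 - ρ) ^ 2) * ((2 * m : ℕ) : ℝ) ^ (-(5 / 48 : ℝ)) * 1 :=
          mul_le_mul_of_nonneg_left hI h0
      _ = C * (ρ / (1 - ρ) ^ 2) * ((2 * m : ℕ) : ℝ) ^ (-(5 / 48 : ℝ)) := mul_one _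
      _ ≤ _ := mul_le_mul_of_nonneg_left hmm (by positivity)
  have hv' := hv.trans e4
  linarith

/-! ### The rate -/

theorem half_pow_le {x : ℝ} (hx : 1 ≤ x) : (1 / 2 : ℝ) ^ ⌊x / 4⌋₊ ≤ 12000 * x ^ (-(5 / 2) : ℝ) := by
  have hx0 : 0 < x := by linarith
  have h1 : x / 4 < (⌊x / 4⌋₊ : ℝ) + 1 := Nat.lt_floor_add_one _
  set K := ⌊x / 4⌋₊ with hK
  -- `2 ^ (K + 1) ≥ exp (x / 8)`
  have h2 : Real.exp (x / 8) ≤ (2 : ℝ) ^ (K + 1) := by
    have h3 : (2 : ℝ) ^ (K + 1) = Real.exp (((K : ℝ) + 1) * Real.log 2) := by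
      rw [← Real.rpow_natCast, Real.rpow_def_of_pos (by norm_num)]
      push_cast
      ring_nf
    rw [h3]
    refine Real.exp_le_exp.2 ?_
    have h4 := Real.log_two_gt_d9
    nlinarith
  have h5 := Real.pow_div_factorial_le_exp (x := x / 8) (by positivity) 3
  have h6 : ((3 : ℕ).factorial : ℝ) = 6 := by norm_num [Nat.factorial]
  rw [h6] at h5
  have h7 : x ^ 3 / 6144 ≤ (2 : ℝ) ^ K := by
    have h8 : (2 : ℝ) ^ (K + 1) = 2 * 2 ^ K := by rw [pow_succ]; ring
    rw [h8] at h2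
    have h9 : (x / 8) ^ 3 / 6 = x ^ 3 / 3072 := by ring
    rw [h9] at h5
    linarith
  have h10 : (1 / 2 : ℝ) ^ K ≤ 6144 / x ^ 3 := by
    rw [one_div, inv_pow]
    have h11 : 0 < x ^ 3 / 6144 := by positivity
    calc ((2 : ℝ) ^ K)⁻¹ ≤ (x ^ 3 / 6144)⁻¹ := inv_anti₀ h11 h7
      _ = 6144 / x ^ 3 := by rw [inv_div]
  refine h10.trans ?_
  have h12 : (1 : ℝ) / x ^ 3 ≤ x ^ (-(5 / 2) : ℝ) := by
    rw [show (1 : ℝ) / x ^ 3 = x ^ (-(3 : ℝ)) by
      rw [Real.rpow_neg hx0.le, one_div]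
      congr 1
      rw [show (3 : ℝ) = ((3 : ℕ) : ℝ) by norm_num, Real.rpow_natCast]]
    exact Real.rpow_le_rpow_of_exponent_le hx (by norm_num)
  calc 6144 / x ^ 3 = 6144 * (1 / x ^ 3) := by ring
    _ ≤ 6144 * x ^ (-(5 / 2) : ℝ) := mul_le_mul_of_nonneg_left h12 (by norm_num)
    _ ≤ _ := mul_le_mul_of_nonneg_right (by norm_num) (by positivity)

theorem var_rate : ∃ C : ℝ, 0 < C ∧ ∀ (ν : PEdge → Measure unitInterval)
    [∀ e, IsProbabilityMeasure (ν e)] (ρ : ℝ), (∀ e, ∫ p, (p : ℝ) ∂ν e = 1 / 2) → 0 ≤ ρ → ρ < 1 →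
    (∀ e, rho (ν e) ≤ ρ) → ∀ n : ℕ, 1 ≤ n →
    ∀ {X : Type} (f : Finset PEdge → X), OfLargest n f → ∀ h : X → ℝ, (∀ x, |h x| ≤ 1) →
    ∫ q, ((∫ ω, h (f (opened (edges n) ω)) ∂pl q) -
      ∫ ω, h (f (opened (edges n) ω)) ∂fair PEdge) ^ 2 ∂evn ν ≤
      C * (1 + ρ / (1 - ρ) ^ 2) * (n : ℝ) ^ (-(1 / 10 : ℝ)) := by
  obtain ⟨C, hC, hvar⟩ := var_largest
  refine ⟨72000 + 2 * C, by positivity, ?_⟩
  intro ν _ ρ hm hρ0 hρ1 hρ n hn X f hf h hh
  have hn1 : (1 : ℝ) ≤ n := by exact_mod_cast hn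
  have hn0 : (0 : ℝ) < n := by linarith
  set x : ℝ := (n : ℝ) ^ (1 / 25 : ℝ) with hx
  have hx1 : 1 ≤ x := Real.one_le_rpow hn1 (by norm_num)
  have hx0 : 0 < x := by linarith
  set y : ℝ := (n : ℝ) ^ (24 / 25 : ℝ) with hy
  have hy1 : 1 ≤ y := Real.one_le_rpow hn1 (by norm_num)
  have hxy : x * y = n := by
    rw [hx, hy, ← Real.rpow_add hn0]
    norm_num
  set m : ℕ := ⌊y⌋₊ with hm'
  have hm1 : 1 ≤ m := Nat.le_floor (by simpa using hy1)
  have hmy : (m : ℝ) ≤ y := Nat.floor_le (by linarith)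
  have hmy2 : y ≤ 2 * m := by
    have h1 : y < (m : ℝ) + 1 := Nat.lt_floor_add_one _
    have h2 : (1 : ℝ) ≤ m := by exact_mod_cast hm1
    linarith
  have hK : ⌊x / 4⌋₊ * (3 * m + 1) ≤ n + 1 := by
    have h1 : ((⌊x / 4⌋₊ : ℕ) : ℝ) ≤ x / 4 := Nat.floor_le (by positivity)
    have h2 : (((3 * m + 1 : ℕ) : ℕ) : ℝ) ≤ 4 * y := by
      push_cast
      linarith
    have h3 : ((⌊x / 4⌋₊ * (3 * m + 1) : ℕ) : ℝ) ≤ n := by
      push_cast at h2 ⊢
      calc (⌊x / 4⌋₊ : ℝ) * (3 * m + 1) ≤ x / 4 * (4 * y) :=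
            mul_le_mul h1 h2 (by positivity) (by positivity)
        _ = x * y := by ring
        _ = n := hxy
    have h4 : ⌊x / 4⌋₊ * (3 * m + 1) ≤ n := by exact_mod_cast h3
    omega
  have key := hvar ν ρ hm hρ0 hρ1 hρ n m ⌊x / 4⌋₊ hm1 hK f hf h hh
  refine key.trans ?_
  set T : ℝ := (n : ℝ) ^ (-(1 / 10 : ℝ)) with hT
  have hT0 : 0 < T := by positivity
  have e1 : x ^ (-(5 / 2) : ℝ) = T := by
    rw [hx, hT, ← Real.rpow_mul hn0.le]
    norm_num
  have e2 : (m : ℝ) ^ (-(5 / 48 : ℝ)) ≤ 2 * T := by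
    have h1 : y / 2 ≤ m := by linarith
    have h2 : (m : ℝ) ^ (-(5 / 48 : ℝ)) ≤ (y / 2) ^ (-(5 / 48 : ℝ)) :=
      Real.rpow_le_rpow_of_nonpos (by positivity) h1 (by norm_num)
    refine h2.trans ?_
    rw [Real.div_rpow (by positivity) (by norm_num), div_eq_mul_inv, mul_comm]
    have h3 : y ^ (-(5 / 48 : ℝ)) = T := by
      rw [hy, hT, ← Real.rpow_mul hn0.le]
      norm_num
    rw [h3]
    refine mul_le_mul_of_nonneg_right ?_ hT0.le
    rw [← Real.rpow_neg (by norm_num), neg_neg]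
    calc (2 : ℝ) ^ (5 / 48 : ℝ) ≤ 2 ^ (1 : ℝ) :=
          Real.rpow_le_rpow_of_exponent_le (by norm_num) (by norm_num)
      _ = 2 := Real.rpow_one 2
  have e3 := half_pow_le hx1
  rw [e1] at e3
  set P : ℝ := ρ / (1 - ρ) ^ 2 with hP'
  have hP : 0 ≤ P := by
    have : 0 < 1 - ρ := by linarith
    positivity
  have e4 : C * P * (m : ℝ) ^ (-(5 / 48 : ℝ)) ≤ C * P * (2 * T) :=
    mul_le_mul_of_nonneg_left e2 (by positivity)
  have e5 : 0 ≤ C * T := by positivity
  have e6 : 0 ≤ P * T := by positivity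
  calc 6 * (1 / 2 : ℝ) ^ ⌊x / 4⌋₊ + C * P * (m : ℝ) ^ (-(5 / 48 : ℝ))
      ≤ 6 * (12000 * T) + C * P * (2 * T) := by linarith
    _ ≤ (72000 + 2 * C) * (1 + P) * T := by nlinarith

end Pool.Agent.X136.CQ
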