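import Pool.Agent.X136.CQ.Large
import Pool.Agent.H342R2.Per.Big

set_option autoImplicit false

/-!
# Functions of the clusters of largest diameter
-/

namespace Pool.Agent.X136.CQ

open Finset Pool.Agent.X136.QC Pool.Agent.X136.QE MeasureTheory ProbabilityTheory H342P.Plain
open Pool.Agent.X136.CQ.Model (opened Touches OfLarge OfLargest)

/-- there is a cluster of diameter at least `m` -/
def DD (m : ℕ) (F : Finset PEdge) : Prop :=
  ∃ v, ∃ a ∈ cluster F v, ∃ b ∈ cluster F v, (m : ℤ) ^ 2 ≤ sqDist a b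

/-- the cluster of `v` has diameter at least `m` -/
def LV (m : ℕ) (F : Finset PEdge) (v : ℤ × ℤ) : Prop :=
  ∃ a ∈ cluster F v, ∃ b ∈ cluster F v, (m : ℤ) ^ 2 ≤ sqDist a b

theorem cluster_eq {F : Finset PEdge} {u v : ℤ × ℤ} (h : u ∈ cluster F v) :
    cluster F u = cluster F v := by
  have h' : (openGraph F).Reachable v u := h
  ext w
  exact ⟨fun hw => h'.trans hw, fun hw => h'.symm.trans hw⟩

theorem LV.of_mem {m : ℕ} {F : Finset PEdge} {u v : ℤ × ℤ} (h : LV m F v) (hu : u ∈ cluster F v) :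
    LV m F u := by
  unfold LV
  rw [cluster_eq hu]
  exact h

theorem self_mem (F : Finset PEdge) (v : ℤ × ℤ) : v ∈ cluster F v := SimpleGraph.Reachable.refl _

theorem adj_edge {F : Finset PEdge} {u w : ℤ × ℤ} (h : (openGraph F).Adj u w) :
    ∃ e ∈ F, (u = fst e ∨ u = snd e) ∧ (w = fst e ∨ w = snd e) ∧
      ∀ F' : Finset PEdge, e ∈ F' → (openGraph F').Adj u w := by
  unfold openGraph at h
  rw [SimpleGraph.fromRel_adj] at h
  obtain ⟨hne, ⟨e, he, h1, h2⟩ | ⟨e, he, h1, h2⟩⟩ := h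
  · refine ⟨e, he, Or.inl h1.symm, Or.inr h2.symm, fun F' hF' => ?_⟩
    unfold openGraph
    rw [SimpleGraph.fromRel_adj]
    exact ⟨hne, Or.inl ⟨e, hF', h1, h2⟩⟩
  · refine ⟨e, he, Or.inr h2.symm, Or.inl h1.symm, fun F' hF' => ?_⟩
    unfold openGraph
    rw [SimpleGraph.fromRel_adj]
    exact ⟨hne, Or.inr ⟨e, hF', h1, h2⟩⟩

/-- two sets with the same edges at the large clusters -/
def Agree (m : ℕ) (F F' : Finset PEdge) : Prop :=
  ∀ e, Touches m F e ∨ Touches m F' e → (e ∈ F ↔ e ∈ F')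

theorem Agree.symm {m : ℕ} {F F' : Finset PEdge} (h : Agree m F F') : Agree m F' F :=
  fun e he => (h e he.symm).symm

theorem reach_walk {F F' : Finset PEdge} {v : ℤ × ℤ} (P : ℤ × ℤ → Prop) (hv : P v)
    (hstep : ∀ u w, P u → (openGraph F).Adj u w → P w ∧ (openGraph F').Adj u w) {w : ℤ × ℤ}
    (h : w ∈ cluster F v) : P w ∧ w ∈ cluster F' v := by
  have h' : (openGraph F).Reachable v w := h
  rw [SimpleGraph.reachable_iff_reflTransGen] at h'
  induction h' with
  | refl => exact ⟨hv, self_mem _ _⟩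
  | @tail b c hab hbc ih =>
    obtain ⟨h1, h2⟩ := ih (by
      show (openGraph F).Reachable v b
      rw [SimpleGraph.reachable_iff_reflTransGen]
      exact hab)
    obtain ⟨h3, h4⟩ := hstep b c h1 hbc
    have h2' : (openGraph F').Reachable v b := h2
    exact ⟨h3, h2'.trans h4.reachable⟩

theorem large_cluster {m : ℕ} {F F' : Finset PEdge} (h : Agree m F F') {v : ℤ × ℤ}
    (hv : LV m F v) : cluster F' v = cluster F v ∧ clusterEdges F v = clusterEdges F' v := by
  have hT : ∀ u ∈ cluster F v, ∀ e : PEdge, (u = fst e ∨ u = snd e) → Touches m F e := by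
    intro u hu e he
    obtain ⟨a, ha, b, hb, hab⟩ := hv.of_mem hu
    exact ⟨u, he, a, ha, b, hb, hab⟩
  have h1 : ∀ w ∈ cluster F v, w ∈ cluster F' v := by
    intro w hw
    refine (reach_walk (F := F) (F' := F') (fun u => u ∈ cluster F v) (self_mem _ _) ?_ hw).2
    intro u w hu hadj
    obtain ⟨e, he, e1, e2, e3⟩ := adj_edge hadj
    have hu' : (openGraph F).Reachable v u := hu
    exact ⟨hu'.trans hadj.reachable, e3 F' ((h e (Or.inl (hT u hu e e1))).1 he)⟩
  have h2 : ∀ w ∈ cluster F' v, w ∈ cluster F v := by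
    intro w hw
    refine (reach_walk (F := F') (F' := F) (fun u => u ∈ cluster F v) (self_mem _ _) ?_ hw).2
    intro u w hu hadj
    obtain ⟨e, he, e1, e2, e3⟩ := adj_edge hadj
    have hadj' := e3 F ((h e (Or.inl (hT u hu e e1))).2 he)
    have hu' : (openGraph F).Reachable v u := hu
    exact ⟨hu'.trans hadj'.reachable, hadj'⟩
  have hc : cluster F' v = cluster F v := Set.Subset.antisymm (fun w hw => h2 w hw) fun w hw => h1 w hw
  refine ⟨hc, ?_⟩
  ext e
  unfold clusterEdges
  simp only [Set.mem_ofPred_eq, hc]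
  constructor
  · rintro ⟨h3, h4⟩
    exact ⟨(h e (Or.inl (hT _ h4 e (Or.inl rfl)))).1 h3, h4⟩
  · rintro ⟨h3, h4⟩
    exact ⟨(h e (Or.inl (hT _ h4 e (Or.inl rfl)))).2 h3, h4⟩

theorem LV.agree {m : ℕ} {F F' : Finset PEdge} (h : Agree m F F') {v : ℤ × ℤ} (hv : LV m F v) :
    LV m F' v := by
  unfold LV
  rw [(large_cluster h hv).1]
  exact hv

theorem DD.agree {m : ℕ} {F F' : Finset PEdge} (h : Agree m F F') (hD : DD m F) : DD m F' := by
  obtain ⟨v, hv⟩ := hD
  exact ⟨v, LV.agree (v := v) h hv⟩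

theorem mem_box {n : ℕ} {v : ℤ × ℤ} :
    v ∈ H342P.Plain.box n ↔ (0 ≤ v.1 ∧ v.1 ≤ n) ∧ (0 ≤ v.2 ∧ v.2 ≤ n) := by
  unfold H342P.Plain.box
  rw [mem_product, Finset.mem_Icc, Finset.mem_Icc]

theorem in_box {n : ℕ} {F : Finset PEdge} (hF : F ⊆ edges n) {v w : ℤ × ℤ} (h : w ∈ cluster F v)
    (hne : v ≠ w) : v ∈ H342P.Plain.box n := by
  have h' : (openGraph F).Reachable v w := h
  rw [SimpleGraph.reachable_iff_reflTransGen] at h'
  rcases Relation.ReflTransGen.cases_head h' with h1 | ⟨c, h1, -⟩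
  · exact absurd h1 hne
  · obtain ⟨e, he, e1, -, -⟩ := adj_edge h1
    have h2 := hF he
    unfold edges at h2
    rw [mem_filter] at h2
    rcases e1 with rfl | rfl
    · exact h2.2.1
    · exact h2.2.2

theorem sqDist_pos_ne {m : ℕ} (hm : 1 ≤ m) {a b : ℤ × ℤ} (h : (m : ℤ) ^ 2 ≤ sqDist a b) : a ≠ b := by
  rintro rfl
  unfold sqDist at h
  have : (1 : ℤ) ≤ m := by exact_mod_cast hm
  nlinarith

theorem largest_agree {n m : ℕ} (hm : 1 ≤ m) {F F' : Finset PEdge} (hF : F ⊆ edges n)
    (h : Agree m F F') (hD : DD m F) {v : ℤ × ℤ} (hv : Largest n F v) :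
    LV m F v ∧ Largest n F' v := by
  obtain ⟨v0, a0, ha0, b0, hb0, hab0⟩ := hD
  have hne := sqDist_pos_ne hm hab0
  have hb0' : b0 ∈ cluster F a0 := by
    rw [cluster_eq ha0]; exact hb0
  have ha0' : a0 ∈ cluster F b0 := by
    rw [cluster_eq hb0]; exact ha0
  obtain ⟨hvb, a, ha, b, hb, hmax⟩ := hv
  have h1 := hmax a0 (in_box hF hb0' hne) b0 (in_box hF ha0' hne.symm) hb0'
  have hLV : LV m F v := ⟨a, ha, b, hb, hab0.trans h1⟩
  refine ⟨hLV, hvb, a, ?_, b, ?_, ?_⟩
  · rw [(large_cluster h hLV).1]; exact ha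
  · rw [(large_cluster h hLV).1]; exact hb
  · intro c hc d hd hdc
    by_cases hcd : (m : ℤ) ^ 2 ≤ sqDist c d
    · have h2 : LV m F' c := ⟨c, self_mem _ _, d, hdc, hcd⟩
      have h3 := (large_cluster h.symm h2).1
      exact hmax c hc d hd (by rw [h3]; exact hdc)
    · have := hab0.trans h1
      omega

open Classical in
/-- the truncated function -/
noncomputable def gt {X : Type*} (m : ℕ) (f : Finset PEdge → X) (h : X → ℝ) (F : Finset PEdge) : ℝ :=
  if DD m F then h (f F) else 0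

theorem gt_large {X : Type*} {n m : ℕ} (hm : 1 ≤ m) {f : Finset PEdge → X} (hf : OfLargest n f)
    (h : X → ℝ) : OfLarge m (edges n) (gt m f h) := by
  intro F F' hF hF' hag
  have hA : Agree m F F' := hag
  unfold gt
  by_cases hD : DD m F
  · have hD' := hD.agree hA
    rw [if_pos hD, if_pos hD']
    rw [hf F F' hF hF' (fun v => ⟨fun hv => (largest_agree hm hF hA hD hv).2,
      fun hv => (largest_agree hm hF' hA.symm hD' hv).2⟩)
      fun v hv => (large_cluster hA (largest_agree hm hF hA hD hv).1).2]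
  · have hD' : ¬ DD m F' := fun h => hD (h.agree hA.symm)
    rw [if_neg hD, if_neg hD']

/-! ### Probabilities -/

open Classical in
/-- events of the box -/
theorem fair_prob (n : ℕ) (A : Finset PEdge → Prop) :
    (fair PEdge).real {ω | A (opened (edges n) ω)} = prob n A := by
  have e1 : {ω : PEdge → Bool | A (opened (edges n) ω)} =
      {ω | (fun i : edges n => ω i) ∈ {y : edges n → Bool | A (Fo (edges n) y)}} := by
    ext ω
    simp only [Set.mem_ofPred_eq, opened_eq]
  rw [e1, fair_event]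
  unfold prob
  have hcard : Fintype.card (edges n) = (edges n).card := Fintype.card_coe _
  rw [hcard]
  congr 1
  have h2 : ((univ.filter fun y : edges n → Bool => A (Fo (edges n) y)).card : ℝ) =
      (((edges n).powerset.filter A).card : ℝ) := by
    congr 1
    refine Finset.card_bij (fun y _ => Fo (edges n) y) ?_ ?_ ?_
    · intro y hy
      rw [mem_filter] at hy ⊢
      exact ⟨mem_powerset.2 (Fo_sub _ _), hy.2⟩
    · intro y _ y' _ h
      funext i
      have h3 : (i : PEdge) ∈ Fo (edges n) y ↔ (i : PEdge) ∈ Fo (edges n) y' := by rw [h]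
      rw [mem_Fo, mem_Fo] at h3
      have h4 : y i = true ↔ y' i = true :=
        ⟨fun h5 => (h3.1 ⟨i.2, h5⟩).2, fun h5 => (h3.2 ⟨i.2, h5⟩).2⟩
      cases h6 : y i <;> cases h7 : y' i <;> simp_all
    · intro F hF
      rw [mem_filter, mem_powerset] at hF
      refine ⟨fun i => decide ((i : PEdge) ∈ F), ?_, ?_⟩
      · rw [mem_filter]
        refine ⟨mem_univ _, ?_⟩
        convert hF.2 using 1
        ext e
        rw [mem_Fo]
        constructor
        · rintro ⟨h1, h2⟩; exact of_decide_eq_true h2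
        · intro h; exact ⟨hF.1 h, decide_eq_true h⟩
      · ext e
        rw [mem_Fo]
        constructor
        · rintro ⟨h1, h2⟩; exact of_decide_eq_true h2
        · intro h; exact ⟨hF.1 h, decide_eq_true h⟩
  rw [← h2, card_filter]
  push_cast
  rfl

/-- the probability that there is no large cluster -/
theorem prob_notDD {n m K : ℕ} (hm : 1 ≤ m) (hK : K * (3 * m + 1) ≤ n + 1) :
    prob n (fun F => ¬ DD (2 * m) F) ≤ (1 / 2) ^ K := by
  rcases Nat.eq_zero_or_pos K with h0 | h0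
  · subst h0
    rw [pow_zero, prob_eq]
    exact H974.Pr_le_one (fun _ => ⟨by norm_num, by norm_num⟩) _ _
  · have h3 : 3 * m ≤ n := by nlinarith
    refine (prob_le_of_pr (B := fun F => ¬ H342P.Big n m (↑F)) ?_).trans
      (H342P.pr_not_big (L := 3 * m) (K := K) (m := (m : ℤ)) (by omega) (by omega)
        (by push_cast; exact le_rfl) hK h3)
    intro F hF hD hB
    apply hD
    obtain ⟨c, d, -, -, hcd, h8⟩ := hB
    refine ⟨c, c, self_mem _ _, d, (mem_cluster F c d).2 hcd, ?_⟩
    have e : H342P.dsq c d = sqDist c d := rfl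
    rw [e] at h8
    push_cast
    nlinarith [sq_nonneg (m : ℤ)]

end Pool.Agent.X136.CQ
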